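import Pool.Agent.Q130.UQ.Fin
import Pool.Agent.Q210.UQ.Egg
import Pool.Agent.Q210.UQ.Loewner
import Pool.Agent.Q210.UQ.Top
import Pool.Agent.Q210.UQ.Energy
import Pool.Agent.Q182.UQ.Min
import Pool.Agent.Q182.UQ.Whole
import Pool.Agent.Q6.UQ.ClaimB
import Pool.Agent.Q130.AN.Main2

set_option autoImplicit false
set_option linter.unusedSectionVars false

open scoped Manifold ContDiff Topology Bundle
open Set Filter Bundle

namespace Pool.Agent.Q130.UQ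

open Pool.Agent.H721R2 Pool.Agent.H779R2.An Pool.Agent.Q130.AN Pool.Agent.H789R2.AN

theorem sEgg (D : ℕ) (hD : 2 ≤ D) : SEgg D :=
  Pool.Agent.Q210.UQ.egg D hD (Pool.Agent.Q210.UQ.loewner D hD) (Pool.Agent.Q210.UQ.top D hD)
    (Pool.Agent.Q210.UQ.energy D hD)

theorem sOnto (D : ℕ) (hD : 2 ≤ D) : SOnto D := Pool.Agent.Q210.UQ.onto D hD (sEgg D hD)

/-- Unstable discs are infinite. -/
theorem inf_disc {X E : Type*} [MetricSpace X] [CompactSpace X] [NormedAddCommGroup E]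
    [InnerProductSpace ℝ E] [FiniteDimensional ℝ E] {S : HypSys X E} (F : Flat S) {D : ℕ}
    (hD : 1 ≤ D) (hfin : ∀ x, Module.finrank ℝ (S.Vu x) = D) :
    ∀ x : X, ∀ r > 0, {z | S.URel r x z}.Infinite := by
  intro x r hr
  obtain ⟨ρ, hρ, hs⟩ := F.surj r hr
  have hnt : Nontrivial (S.Vu x) := Module.nontrivial_of_finrank_pos (R := ℝ)
    (by rw [hfin x]; omega)
  obtain ⟨w, hw⟩ := exists_ne (0 : S.Vu x)
  have hwn : 0 < ‖(w : E)‖ := norm_pos_iff.mpr (fun h => hw (Subtype.ext h))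
  have h1 : ∀ n : ℕ, ∃ y, S.URel r x y ∧
      F.Lc x y = (ρ / ((n : ℝ) + 1) / ‖(w : E)‖) • (w : E) := by
    intro n
    apply hs x _ ((S.Vu x).smul_mem _ w.2)
    rw [norm_smul, Real.norm_eq_abs, abs_of_pos (by positivity), div_mul_cancel₀ _ hwn.ne']
    exact div_le_self hρ.le (by linarith [(Nat.cast_nonneg n : (0 : ℝ) ≤ n)])
  choose y hy1 hy2 using h1
  refine Set.infinite_of_injective_forall_mem (f := y) (fun n m hnm => ?_) hy1
  have e1 : (ρ / ((n : ℝ) + 1) / ‖(w : E)‖) • (w : E) = (ρ / ((m : ℝ) + 1) / ‖(w : E)‖) • (w : E) := by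
    rw [← hy2, ← hy2, hnm]
  have e2 : (ρ / ((n : ℝ) + 1) / ‖(w : E)‖) = (ρ / ((m : ℝ) + 1) / ‖(w : E)‖) :=
    smul_left_injective ℝ (fun h => hw (Subtype.ext h) : (w : E) ≠ 0) e1
  have hn0 : (0 : ℝ) < (n : ℝ) + 1 := by positivity
  have hm0 : (0 : ℝ) < (m : ℝ) + 1 := by positivity
  field_simp at e2
  have e3 : (n : ℝ) = m := by linarith
  exact_mod_cast e3

/-- **Abstract theorem**: uniform quasiconformality on one bundle of rank at least two. -/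
theorem abstract_qc {X E : Type*} [MetricSpace X] [CompactSpace X] [NormedAddCommGroup E]
    [InnerProductSpace ℝ E] [FiniteDimensional ℝ E] [PreconnectedSpace X] (S : HypSys X E)
    {Q r K : ℝ} (hQ : Quad S Q r) (hK : QC S K) (D d : ℕ) (hD : 2 ≤ D)
    (hfu : ∀ x, Module.finrank ℝ (S.Vu x) = D) (hfs : ∀ x, Module.finrank ℝ (S.Vs x) = d)
    (U V : Set X) (hU : IsOpen U) (hUn : U.Nonempty) (hV : IsOpen V) (hVn : V.Nonempty) :
    ∃ n : ℕ, (S.g^[n] '' U ∩ V).Nonempty := by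
  obtain ⟨Lc, a1, a2, a3⟩ := hasLc S hQ hK
  obtain ⟨τ, b1, b2, b3⟩ := hasTau S hQ hK
  obtain ⟨H, c1, c2, c3⟩ := hasHol S hQ hK
  obtain ⟨L⟩ := exists_lin1 (S := S) ⟨K, hK, Lc, a1, a2, a3, τ, b1, b2, b3, H, c1, c2, c3⟩
  obtain ⟨F⟩ := exists_flat L
  have hG := F.geo
  have hseg : SegProp S := seg_of_chart (chart_prop S d hfs)
  have hB : SClaimB S := Pool.Agent.Q6.UQ.claimB hG (inf_disc F (by omega) hfu)
    (Pool.Agent.Q182.UQ.enter S hG (Pool.Agent.Q182.UQ.minEx S)) (Pool.Agent.Q182.UQ.reach S hG)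
  obtain ⟨σ₂, hσ₂, hσ₂', h1⟩ := lb1 F hfu (sEgg D hD) hB
  obtain ⟨σ₁, hσ₁, hσ₁', h2⟩ := reach_all F hfu (sOnto D hD)
  obtain ⟨x₀, hx₀⟩ := hUn
  have hun : USat S (Set.univ : Set X) := ⟨isClosed_univ, ⟨x₀, trivial⟩, fun _ _ => trivial,
    fun _ _ => trivial, fun _ _ _ _ => trivial⟩
  obtain ⟨Λ, -, hΛ⟩ := Pool.Agent.Q182.UQ.minEx S _ hun
  set σ := min σ₁ σ₂ with hσ
  have hσ0 : 0 < σ := lt_min hσ₁ hσ₂
  have hσa : σ ≤ σ₁ := min_le_left _ _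
  have hσb : σ ≤ σ₂ := min_le_right _ _
  obtain ⟨C, hC, h3⟩ := h1 σ hσ0 hσb Λ hΛ
  obtain ⟨ε, hε, h4⟩ := transport F (by omega) hfu hΛ.toUSat hσ0 (by linarith) h3 hseg
  have h5 := transport' F hΛ.toUSat hε h4
  have h6 := h2 σ hσ0 hσa Λ hΛ.toUSat h5
  have h7 : Λ = Set.univ := Pool.Agent.Q182.UQ.whole S hG Λ hΛ h6
  rw [h7] at hΛ
  exact Pool.Agent.Q182.UQ.trans S (Pool.Agent.Q182.UQ.reach S hG) hΛ U V hU ⟨x₀, hx₀⟩ hV hVn

end Pool.Agent.Q130.UQ
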