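import Pool.Agent.Q130.UQ.Hol
import Pool.Agent.Q130.AN.Tr1
import Pool.Agent.H779R2.Nu.N02

set_option autoImplicit false

namespace Pool.Agent.Q130.UQ

open Pool.Agent.H721R2 Pool.Agent.H779R2.An Pool.Agent.Q130.AN Filter Topology Metric

/-- Uniform differentiability implies continuous differentiability. -/
theorem cont_of_unif {W W' : Type*} [NormedAddCommGroup W] [NormedSpace ℝ W]
    [NormedAddCommGroup W'] [NormedSpace ℝ W'] {U : Set W} {H : W → W'} {H' : W → W →L[ℝ] W'}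
    (h : ∀ z₀ ∈ U, ∀ η > 0, ∃ ρ > 0, ∀ z₁ z, ‖z₁ - z₀‖ < ρ → ‖z - z₀‖ < ρ →
      ‖H z - H z₁ - H' z₁ (z - z₁)‖ ≤ η * ‖z - z₁‖) :
    (∀ z ∈ U, HasFDerivAt H (H' z) z) ∧ ContinuousOn H' U := by
  refine ⟨fun z₀ hz₀ => ?_, fun z₀ hz₀ => ?_⟩
  · rw [hasFDerivAt_iff_isLittleO, Asymptotics.isLittleO_iff]
    intro η hη
    obtain ⟨ρ, hρ, h1⟩ := h z₀ hz₀ η hη
    filter_upwards [ball_mem_nhds z₀ hρ] with z hz
    rw [mem_ball, dist_eq_norm] at hz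
    exact h1 z₀ z (by simpa using hρ) hz
  · apply ContinuousAt.continuousWithinAt
    rw [Metric.continuousAt_iff]
    intro η hη
    obtain ⟨ρ, hρ, h1⟩ := h z₀ hz₀ (η / 8) (by positivity)
    refine ⟨ρ / 4, by positivity, fun z₁ hz₁ => ?_⟩
    rw [dist_eq_norm] at hz₁ ⊢
    refine lt_of_le_of_lt ?_ (by linarith : η / 2 < η)
    refine ContinuousLinearMap.opNorm_le_bound _ (by positivity) (fun w => ?_)
    rcases eq_or_ne w 0 with hw | hw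
    · rw [hw, map_zero, norm_zero, norm_zero, mul_zero]
    have hw0 : 0 < ‖w‖ := norm_pos_iff.mpr hw
    set r : ℝ := ρ / 4 with hr
    have hr0 : 0 < r := by positivity
    set w' : W := (r / ‖w‖) • w with hw'
    have hwn : ‖w'‖ = r := by
      rw [hw', norm_smul, Real.norm_eq_abs, abs_of_pos (by positivity)]
      field_simp
    have e0 : ‖(z₁ + w') - z₀‖ < ρ := by
      have : z₁ + w' - z₀ = (z₁ - z₀) + w' := by abel
      rw [this]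
      have := norm_add_le (z₁ - z₀) w'
      rw [hwn] at this
      linarith
    have e1 := h1 z₁ (z₁ + w') (by linarith) e0
    have e2 := h1 z₀ (z₁ + w') (by simpa using hρ) e0
    have e3 := h1 z₀ z₁ (by simpa using hρ) (by linarith)
    have e4 : (H' z₁ - H' z₀) w' = -(H (z₁ + w') - H z₁ - H' z₁ (z₁ + w' - z₁)) +
        (H (z₁ + w') - H z₀ - H' z₀ (z₁ + w' - z₀)) - (H z₁ - H z₀ - H' z₀ (z₁ - z₀)) := by
      have a1 : z₁ + w' - z₁ = w' := by abel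
      have a2 : z₁ + w' - z₀ = w' + (z₁ - z₀) := by abel
      rw [a1, a2, map_add, ContinuousLinearMap.sub_apply]
      abel
    have e5 : ‖z₁ + w' - z₁‖ = r := by rw [add_sub_cancel_left, hwn]
    have e6 : ‖z₁ + w' - z₀‖ ≤ 2 * r := by
      have : z₁ + w' - z₀ = (z₁ - z₀) + w' := by abel
      rw [this]
      have := norm_add_le (z₁ - z₀) w'
      rw [hwn] at this
      linarith
    have e7 : ‖(H' z₁ - H' z₀) w'‖ ≤ η / 2 * r := by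
      rw [e4]
      have b1 := norm_sub_le (-(H (z₁ + w') - H z₁ - H' z₁ (z₁ + w' - z₁)) +
        (H (z₁ + w') - H z₀ - H' z₀ (z₁ + w' - z₀))) (H z₁ - H z₀ - H' z₀ (z₁ - z₀))
      have b2 := norm_add_le (-(H (z₁ + w') - H z₁ - H' z₁ (z₁ + w' - z₁)))
        (H (z₁ + w') - H z₀ - H' z₀ (z₁ + w' - z₀))
      rw [norm_neg] at b2
      rw [e5] at e1
      have b3 : η / 8 * ‖z₁ + w' - z₀‖ ≤ η / 8 * (2 * r) :=
        mul_le_mul_of_nonneg_left e6 (by positivity)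
      have b4 : η / 8 * ‖z₁ - z₀‖ ≤ η / 8 * r :=
        mul_le_mul_of_nonneg_left hz₁.le (by positivity)
      linarith
    have e8 : (H' z₁ - H' z₀) w' = (r / ‖w‖) • (H' z₁ - H' z₀) w := by rw [hw', map_smul]
    rw [e8, norm_smul, Real.norm_eq_abs, abs_of_pos (by positivity)] at e7
    have e9 : r / ‖w‖ * ‖(H' z₁ - H' z₀) w‖ ≤ r / ‖w‖ * (η / 2 * ‖w‖) := by
      calc _ ≤ η / 2 * r := e7
        _ = _ := by field_simp
    exact le_of_mul_le_mul_left e9 (by positivity)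

variable {X E : Type*} [MetricSpace X] [CompactSpace X] [NormedAddCommGroup E]
  [InnerProductSpace ℝ E] [FiniteDimensional ℝ E]

/-- Orthonormal coordinates of a subspace. -/
structure Crd (W : Submodule ℝ E) (D : ℕ) where
  I : V D →L[ℝ] E
  P : E →L[ℝ] V D
  mem : ∀ z, I z ∈ W
  norm : ∀ z, ‖I z‖ = ‖z‖
  PI : ∀ z, P (I z) = z
  IP : ∀ w ∈ W, I (P w) = w

theorem exists_crd (W : Submodule ℝ E) {D : ℕ} (h : Module.finrank ℝ W = D) :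
    Nonempty (Crd W D) := by
  subst h
  let e := (stdOrthonormalBasis ℝ W).repr
  refine ⟨⟨W.subtypeL.comp (e.symm : V _ →L[ℝ] W), (e : W →L[ℝ] V _).comp
    W.orthogonalProjectionOnto, fun z => (e.symm z).2, fun z => ?_, fun z => ?_, fun w hw => ?_⟩⟩
  · exact e.symm.norm_map z
  · show e (W.orthogonalProjectionOnto ((e.symm z : W) : E)) = z
    rw [Submodule.orthogonalProjectionOnto_mem_subspace_eq_self, e.apply_symm_apply]
  · show ((e.symm (e (W.orthogonalProjectionOnto w)) : W) : E) = w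
    rw [e.symm_apply_apply]
    have := Submodule.orthogonalProjectionOnto_mem_subspace_eq_self (⟨w, hw⟩ : W)
    exact congrArg Subtype.val this

theorem Crd.normP {W : Submodule ℝ E} {D : ℕ} (c : Crd W D) {w : E} (hw : w ∈ W) :
    ‖c.P w‖ = ‖w‖ := by
  rw [← c.norm, c.IP w hw]

variable {S : HypSys X E} {σ : ℝ} {A : Set X} {φ : X → X}

/-- Bounds for the transport along bounded pieces of unstable leaves. -/
theorem tau_bd (F : Flat S) (R : ℝ) : ∃ C > 0, ∀ x a, UAsym S x a → ‖F.Lc x a‖ ≤ R →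
    ∀ w ∈ S.Vu x, ‖F.τ x a w‖ ≤ C * ‖w‖ ∧ ‖w‖ ≤ C * ‖F.τ x a w‖ := by
  obtain ⟨ρ, hρ, hsm⟩ := F.small _ F.geo.pos
  have hlim : Tendsto (fun n : ℕ => (1 / 16 : ℝ) ^ n * R) atTop (𝓝 0) := by
    have := (tendsto_pow_atTop_nhds_zero_of_lt_one (by norm_num : (0 : ℝ) ≤ 1 / 16)
      (by norm_num)).mul_const R
    simpa using this
  obtain ⟨m, hm⟩ := (hlim.eventually (gt_mem_nhds hρ)).exists
  have hL := S.one_le_Lu
  have hLm : (1 : ℝ) ≤ S.Lu ^ m := one_le_pow₀ hL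
  refine ⟨2 * S.Lu ^ m, by positivity, fun x a hxa ha w hw => ?_⟩
  have h1 : S.URel F.ε₀ (S.g.symm^[m] x) (S.g.symm^[m] a) := by
    apply hsm _ _ (hxa.symm_iter m)
    rw [F.toLin0.Lc_back hxa m]
    refine (Dn_symm_le S m x (F.Lc_mem _ _ hxa)).trans ?_
    exact (mul_le_mul_of_nonneg_left ha (by positivity)).trans hm.le
  have hwm := Dn_symm_mem S m x hw
  have h2 := F.toLin0.τ_back hxa m hw
  have h3 := F.τ_le _ _ h1 _ hwm
  have h4 := F.le_τ _ _ h1 _ hwm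
  rw [h2] at h3 h4
  have hτ := F.τ_mem _ _ hxa _ hw
  have h5 := Dn_symm_le S m x hw
  have h6 := Dn_symm_le S m a hτ
  have h7 := le_Dn_symm S m x hw
  have h8 := le_Dn_symm S m a hτ
  have h9 : (1 / 16 : ℝ) ^ m ≤ 1 := pow_le_one₀ (by norm_num) (by norm_num)
  constructor
  · calc _ ≤ S.Lu ^ m * ‖Dn S.symm m a (F.τ x a w)‖ := h8
      _ ≤ S.Lu ^ m * (2 * ‖Dn S.symm m x w‖) := by gcongr
      _ ≤ S.Lu ^ m * (2 * ((1 / 16) ^ m * ‖w‖)) := by gcongr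
      _ ≤ S.Lu ^ m * (2 * (1 * ‖w‖)) := by gcongr
      _ = _ := by ring
  · calc _ ≤ S.Lu ^ m * ‖Dn S.symm m x w‖ := h7
      _ ≤ S.Lu ^ m * (2 * ‖Dn S.symm m a (F.τ x a w)‖) := by gcongr
      _ ≤ S.Lu ^ m * (2 * ((1 / 16) ^ m * ‖F.τ x a w‖)) := by gcongr
      _ ≤ S.Lu ^ m * (2 * (1 * ‖F.τ x a w‖)) := by gcongr
      _ = _ := by ring

/-- Uniform differentiability of the long range holonomies. -/
theorem hol_diff (F : Flat S) : ∃ σ₁ > 0, σ₁ ≤ F.ε₀ / 8 ∧ ∀ σ > 0, σ ≤ σ₁ →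
    ∀ (A : Set X) (φ : X → X),
    Hol S σ A φ → ∀ η > 0, ∃ ρ > 0, ∀ a₀ ∈ A, ∀ a ∈ A, ‖F.Lc a₀ a‖ ≤ ρ →
      ‖F.Lc (φ a₀) (φ a) - F.H a₀ (φ a₀) (F.Lc a₀ a)‖ ≤ η * ‖F.Lc a₀ a‖ := by
  obtain ⟨εc, hεc, hcd⟩ := Pool.Agent.H779R2.Nu.cd_unif F
  have hε0 := F.geo.pos
  refine ⟨min (F.ε₀ / 8) (εc / 3), lt_min (by positivity) (by positivity), min_le_left _ _,
    fun σ hσ0 hσ A φ hT η hη => ?_⟩
  have hσ1 : σ ≤ F.ε₀ / 8 := hσ.trans (min_le_left _ _)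
  have hσ2 : σ ≤ εc / 3 := hσ.trans (min_le_right _ _)
  obtain ⟨N, hN⟩ := hT.ev
  obtain ⟨hN1, hN2⟩ := hN N le_rfl
  have hL := S.one_le_Lu
  have hLN : (1 : ℝ) ≤ S.Lu ^ N := one_le_pow₀ hL
  obtain ⟨ρ1, hρ1, hc⟩ := hcd (η / S.Lu ^ N) (by positivity)
  obtain ⟨ρ2, hρ2, hsm⟩ := F.small σ hσ0
  refine ⟨min ρ1 ρ2 / S.Lu ^ N, by positivity, fun a₀ ha₀ a ha hr => ?_⟩
  have hU := hT.ua a₀ ha₀ a ha
  have hU' := hT.uu a₀ ha₀ a ha
  have hS := hT.sasym F.geo (by linarith) a₀ ha₀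
  have hLc := F.Lc_mem _ _ hU
  have hLc' := F.Lc_mem _ _ hU'
  rw [le_div_iff₀ (by positivity)] at hr
  have h1 : ‖F.Lc (S.g^[N] a₀) (S.g^[N] a)‖ ≤ S.Lu ^ N * ‖F.Lc a₀ a‖ := by
    rw [F.toLin0.Lc_iter hU N]
    exact Dn_le S N a₀ hLc
  have h2 : ‖F.Lc (S.g^[N] a₀) (S.g^[N] a)‖ ≤ min ρ1 ρ2 := by linarith
  have h3 : S.URel σ (S.g^[N] a₀) (S.g^[N] a) :=
    hsm _ _ (hU.iter N) (h2.trans (min_le_right _ _))
  have h4 := hN2 a₀ ha₀ a ha h3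
  have h5 := hc _ _ _ _ ((hN1 a₀ ha₀).mono (by linarith)) (h3.mono (by linarith))
    (h2.trans (min_le_left _ _)) ((hN1 a ha).mono (by linarith)) (h4.mono (by linarith))
  rw [F.toLin0.Lc_iter hU N, F.toLin0.Lc_iter hU' N, F.toLin0.H_iter hS N hLc, ← map_sub] at h5
  have h6 : F.Lc (φ a₀) (φ a) - F.H a₀ (φ a₀) (F.Lc a₀ a) ∈ S.Vu (φ a₀) :=
    (S.Vu _).sub_mem hLc' (F.H_mem _ _ hS _ hLc)
  have h7 := le_Dn S N (φ a₀) h6
  have h8 := Dn_le S N a₀ hLc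
  have h9 : (1 : ℝ) ≤ 16 ^ N := one_le_pow₀ (by norm_num)
  calc _ ≤ 16 ^ N * ‖F.Lc (φ a₀) (φ a) - F.H a₀ (φ a₀) (F.Lc a₀ a)‖ :=
        le_mul_of_one_le_left (norm_nonneg _) h9
    _ ≤ _ := h7
    _ ≤ η / S.Lu ^ N * ‖Dn S N a₀ (F.Lc a₀ a)‖ := h5
    _ ≤ η / S.Lu ^ N * (S.Lu ^ N * ‖F.Lc a₀ a‖) := by gcongr
    _ = _ := by field_simp

/-- The coordinate expression of a long range holonomy is a quasiconformal embedding. -/
theorem qcemb (F : Flat S) : ∃ σ₁ > 0, σ₁ ≤ F.ε₀ / 8 ∧ ∀ σ > 0, σ ≤ σ₁ → ∀ (D : ℕ) (x y : X)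
    (q : E → X) (φ : X → X) (cx : Crd (S.Vu x) D) (cy : Crd (S.Vu y) D) (U : Set (V D)),
    IsOpen U → (∀ v ∈ S.Vu x, UAsym S x (q v) ∧ F.Lc x (q v) = v) →
    (∀ z ∈ U, UAsym S y (φ (q (cx.I z)))) → Set.InjOn (fun z => φ (q (cx.I z))) U →
    (∀ z₀ ∈ U, ∃ ρ > 0, ball z₀ ρ ⊆ U ∧ Hol S σ ((fun z => q (cx.I z)) '' ball z₀ ρ) φ) →
    ∃ H', QCEmb D ((4 * |F.K| ^ 2) * (4 * |F.K| ^ 2) * (4 * |F.K| ^ 2))
      (fun z => cy.P (F.Lc y (φ (q (cx.I z))))) H' U := by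
  obtain ⟨σ₁, hσ₁, hσ₁', hd⟩ := hol_diff F
  refine ⟨σ₁, hσ₁, hσ₁', fun σ hσ0 hσ D x y q φ cx cy U hU hq hy hinj hloc => ?_⟩
  -- notation
  set G : V D → E := fun z => F.Lc y (φ (q (cx.I z))) with hG
  set a : V D → X := fun z => q (cx.I z) with ha
  set b : V D → X := fun z => φ (q (cx.I z)) with hb
  let T : V D → E →ₗ[ℝ] E := fun z => (F.τ (b z) y).comp ((F.H (a z) (b z)).comp (F.τ x (a z)))
  have hTa : ∀ z w, T z w = F.τ (b z) y (F.H (a z) (b z) (F.τ x (a z) w)) := fun z w => rfl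
  let H' : V D → V D →L[ℝ] V D := fun z =>
    cy.P.comp ((LinearMap.toContinuousLinearMap (T z)).comp cx.I)
  have hH' : ∀ z w, H' z w = cy.P (T z (cx.I w)) := fun z w => rfl
  have hax : ∀ z, UAsym S x (a z) := fun z => (hq _ (cx.mem z)).1
  have hLa : ∀ z, F.Lc x (a z) = cx.I z := fun z => (hq _ (cx.mem z)).2
  have hby : ∀ z ∈ U, UAsym S y (b z) := hy
  have hsab : ∀ z ∈ U, SAsym S (a z) (b z) := by
    intro z hz
    obtain ⟨ρ, hρ, -, h⟩ := hloc z hz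
    exact h.sasym F.geo (by linarith [F.geo.pos]) _ ⟨z, mem_ball_self hρ, rfl⟩
  have hGm : ∀ z ∈ U, G z ∈ S.Vu y := fun z hz => F.Lc_mem _ _ (hby z hz)
  have t1 : ∀ z w, w ∈ S.Vu x → F.τ x (a z) w ∈ S.Vu (a z) := fun z w hw => F.τ_mem _ _ (hax z) _ hw
  have t2 : ∀ z ∈ U, ∀ w ∈ S.Vu x, F.H (a z) (b z) (F.τ x (a z) w) ∈ S.Vu (b z) :=
    fun z hz w hw => F.H_mem _ _ (hsab z hz) _ (t1 z w hw)
  have t3 : ∀ z ∈ U, ∀ w ∈ S.Vu x, T z w ∈ S.Vu y :=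
    fun z hz w hw => F.τ_mem _ _ (hby z hz).symm _ (t2 z hz w hw)
  have tinj : ∀ z ∈ U, ∀ w ∈ S.Vu x, T z w = 0 → w = 0 := by
    intro z hz w hw h0
    exact tau_inj F (hax z) hw (hol_inj F (hsab z hz) (t1 z w hw)
      (tau_inj F (hby z hz).symm (t2 z hz w hw) h0))
  have tqc : ∀ z ∈ U, ∀ u ∈ S.Vu x, ∀ w ∈ S.Vu x, ‖T z u‖ * ‖w‖ ≤
      ((4 * |F.K| ^ 2) * (4 * |F.K| ^ 2) * (4 * |F.K| ^ 2)) * (‖T z w‖ * ‖u‖) := by
    intro z hz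
    have hc : 0 ≤ 4 * |F.K| ^ 2 := by positivity
    have a1 := qc_comp (V := S.Vu x) (V' := S.Vu (a z)) (A := F.τ x (a z)) (B := F.H (a z) (b z))
      hc hc (fun w hw => t1 z w hw) (fun w hw => tau_inj F (hax z) hw)
      (fun u hu w hw => tau_qc F (hax z) hu hw) (fun u hu w hw => hol_qc F (hsab z hz) hu hw)
    exact qc_comp (V := S.Vu x) (V' := S.Vu (b z)) (A := (F.H (a z) (b z)).comp (F.τ x (a z)))
      (B := F.τ (b z) y) (by positivity) hc (fun w hw => t2 z hz w hw)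
      (fun w hw h0 => tau_inj F (hax z) hw (hol_inj F (hsab z hz) (t1 z w hw) h0))
      a1 (fun u hu w hw => tau_qc F (hby z hz).symm hu hw)
  -- the increments
  have inc1 : ∀ z z', F.Lc (a z) (a z') = F.τ x (a z) (cx.I (z' - z)) := by
    intro z z'
    rw [F.base x (a z) (a z') (hax z) (hax z'), hLa, hLa, map_sub cx.I]
  have inc2 : ∀ z ∈ U, ∀ z' ∈ U, G z' - G z = F.τ (b z) y (F.Lc (b z) (b z')) := by
    intro z hz z' hz'
    have hwV : G z' - G z ∈ S.Vu y := (S.Vu y).sub_mem (hGm z' hz') (hGm z hz)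
    have e1 : F.Lc (b z) (b z') = F.τ y (b z) (G z' - G z) :=
      F.base y (b z) (b z') (hby z hz) (hby z' hz')
    rw [e1, F.τ_comp y (b z) y (hby z hz) (hby z hz).symm _ hwV, F.τ_self y _ hwV]
  have key : ∀ z₀ ∈ U, ∀ η > 0, ∃ ρ > 0, ∀ z₁ z, ‖z₁ - z₀‖ < ρ → ‖z - z₀‖ < ρ →
      ‖cy.P (G z) - cy.P (G z₁) - H' z₁ (z - z₁)‖ ≤ η * ‖z - z₁‖ := by
    intro z₀ hz₀ η hη
    obtain ⟨ρ0, hρ0, hsub, hT⟩ := hloc z₀ hz₀
    obtain ⟨C, hC, hCb⟩ := tau_bd F (‖z₀‖ + ρ0)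
    have hCb' : ∀ z, ‖z - z₀‖ < ρ0 → ∀ w ∈ S.Vu x, ‖F.τ x (a z) w‖ ≤ C * ‖w‖ := by
      intro z hz w hw
      refine (hCb x (a z) (hax z) ?_ w hw).1
      rw [hLa, cx.norm]
      have := norm_add_le (z - z₀) z₀
      rw [sub_add_cancel] at this
      linarith
    obtain ⟨B, hB, hBb⟩ := lin_bound (F.τ (b z₀) y)
    obtain ⟨B2, hB2, hB2b⟩ := lin_bound (F.H (a z₀) (b z₀))
    have hm0 : z₀ ∈ ball z₀ ρ0 := mem_ball_self hρ0
    obtain ⟨ρs, hρs, hsm⟩ := F.small F.ε₀ F.geo.pos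
    obtain ⟨ρ1, hρ1, h1⟩ := hd σ hσ0 hσ _ φ hT 1 one_pos
    obtain ⟨ρ2, hρ2, h2⟩ := hd σ hσ0 hσ _ φ hT (η / (B * 2 * C)) (by positivity)
    -- images of nearby points are close
    have hnear : ∀ z, ‖z - z₀‖ < ρ0 → ‖z - z₀‖ ≤ min (ρ1 / C) (ρs / ((B2 + 1) * C)) →
        S.URel F.ε₀ (b z₀) (b z) := by
      intro z hz hz'
      have hzb : z ∈ ball z₀ ρ0 := by rw [mem_ball, dist_eq_norm]; exact hz
      have e1 : ‖F.Lc (a z₀) (a z)‖ ≤ C * ‖z - z₀‖ := by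
        rw [inc1]
        refine (hCb' z₀ (by simpa using hρ0) _ (cx.mem _)).trans ?_
        rw [cx.norm]
      have e2 := hz'.trans (min_le_left _ _)
      have e3 := hz'.trans (min_le_right _ _)
      rw [le_div_iff₀ (by positivity)] at e2 e3
      have e4 := h1 (a z₀) ⟨z₀, hm0, rfl⟩ (a z) ⟨z, hzb, rfl⟩ (by linarith)
      have e5 := hB2b (F.Lc (a z₀) (a z))
      have e6 := norm_le_norm_add_norm_sub' (F.Lc (b z₀) (b z)) (F.H (a z₀) (b z₀) (F.Lc (a z₀) (a z)))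
      apply hsm _ _ ((hby z₀ hz₀).symm.trans (hby z (hsub hzb)))
      have e7 : ‖F.Lc (b z₀) (b z)‖ ≤ (B2 + 1) * ‖F.Lc (a z₀) (a z)‖ := by
        change ‖F.Lc (b z₀) (b z) - F.H (a z₀) (b z₀) (F.Lc (a z₀) (a z))‖ ≤ _ at e4
        linarith
      have e8 : (B2 + 1) * ‖F.Lc (a z₀) (a z)‖ ≤ (B2 + 1) * (C * ‖z - z₀‖) := by gcongr
      linarith
    refine ⟨min (min ρ0 (ρ2 / (2 * C))) (min (ρ1 / C) (ρs / ((B2 + 1) * C))), by positivity,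
      fun z₁ z hz₁ hz => ?_⟩
    have hz₁0 : ‖z₁ - z₀‖ < ρ0 := lt_of_lt_of_le hz₁ ((min_le_left _ _).trans (min_le_left _ _))
    have hz0 : ‖z - z₀‖ < ρ0 := lt_of_lt_of_le hz ((min_le_left _ _).trans (min_le_left _ _))
    have hz₁2 : ‖z₁ - z₀‖ < ρ2 / (2 * C) :=
      lt_of_lt_of_le hz₁ ((min_le_left _ _).trans (min_le_right _ _))
    have hz2 : ‖z - z₀‖ < ρ2 / (2 * C) :=
      lt_of_lt_of_le hz ((min_le_left _ _).trans (min_le_right _ _))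
    have hz₁b : z₁ ∈ ball z₀ ρ0 := by rw [mem_ball, dist_eq_norm]; exact hz₁0
    have hzb : z ∈ ball z₀ ρ0 := by rw [mem_ball, dist_eq_norm]; exact hz0
    have hz₁U := hsub hz₁b
    have hzU := hsub hzb
    have hb1 : S.URel F.ε₀ (b z₀) (b z₁) := hnear z₁ hz₁0 (hz₁.le.trans (min_le_right _ _))
    have hzz : ‖z - z₁‖ ≤ ρ2 / C := by
      have e1 : z - z₁ = (z - z₀) - (z₁ - z₀) := by abel
      have e2 := norm_sub_le (z - z₀) (z₁ - z₀)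
      rw [← e1] at e2
      have e3 : ρ2 / (2 * C) + ρ2 / (2 * C) = ρ2 / C := by field_simp; ring
      linarith
    have e1 : ‖F.Lc (a z₁) (a z)‖ ≤ C * ‖z - z₁‖ := by
      rw [inc1]
      refine (hCb' z₁ hz₁0 _ (cx.mem _)).trans ?_
      rw [cx.norm]
    have e2 : ‖F.Lc (a z₁) (a z)‖ ≤ ρ2 := by
      rw [le_div_iff₀ hC] at hzz
      linarith
    have e3 := h2 (a z₁) ⟨z₁, hz₁b, rfl⟩ (a z) ⟨z, hzb, rfl⟩ e2
    change ‖F.Lc (b z₁) (b z) - F.H (a z₁) (b z₁) (F.Lc (a z₁) (a z))‖ ≤ _ at e3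
    have hδ : F.Lc (b z₁) (b z) - F.H (a z₁) (b z₁) (F.Lc (a z₁) (a z)) ∈ S.Vu (b z₁) := by
      refine (S.Vu _).sub_mem (F.Lc_mem _ _ ((hby z₁ hz₁U).symm.trans (hby z hzU))) ?_
      exact F.H_mem _ _ (hsab z₁ hz₁U) _ (F.Lc_mem _ _ ((hax z₁).symm.trans (hax z)))
    have e4 : G z - G z₁ - T z₁ (cx.I (z - z₁)) =
        F.τ (b z₀) y (F.τ (b z₁) (b z₀)
          (F.Lc (b z₁) (b z) - F.H (a z₁) (b z₁) (F.Lc (a z₁) (a z)))) := by
      rw [F.τ_comp (b z₁) (b z₀) y ((hby z₁ hz₁U).symm.trans (hby z₀ hz₀)) (hby z₀ hz₀).symm _ hδ,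
        map_sub (F.τ (b z₁) y), inc2 z₁ hz₁U z hzU, hTa, inc1]
    have e5 : cy.P (G z) - cy.P (G z₁) - H' z₁ (z - z₁) =
        cy.P (G z - G z₁ - T z₁ (cx.I (z - z₁))) := by
      rw [hH', map_sub cy.P, map_sub cy.P]
    have e6 : G z - G z₁ - T z₁ (cx.I (z - z₁)) ∈ S.Vu y :=
      (S.Vu y).sub_mem ((S.Vu y).sub_mem (hGm z hzU) (hGm z₁ hz₁U)) (t3 z₁ hz₁U _ (cx.mem _))
    rw [e5, cy.normP e6, e4]
    have e7 := F.τ_le _ _ hb1.symm _ hδ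
    calc _ ≤ B * ‖F.τ (b z₁) (b z₀)
          (F.Lc (b z₁) (b z) - F.H (a z₁) (b z₁) (F.Lc (a z₁) (a z)))‖ := hBb _
      _ ≤ B * (2 * (η / (B * 2 * C) * (C * ‖z - z₁‖))) := by
          refine mul_le_mul_of_nonneg_left (e7.trans ?_) hB.le
          refine mul_le_mul_of_nonneg_left (e3.trans ?_) (by norm_num)
          exact mul_le_mul_of_nonneg_left e1 (by positivity)
      _ = η * ‖z - z₁‖ := by field_simp
  obtain ⟨k1, k2⟩ := cont_of_unif (U := U) (H := fun z => cy.P (G z)) (H' := H') key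
  refine ⟨H', ⟨?_, k1, k2, ?_, ?_⟩⟩
  · intro z hz z' hz' he
    have e1 : cy.I (cy.P (G z)) = cy.I (cy.P (G z')) := congrArg cy.I he
    rw [cy.IP _ (hGm z hz), cy.IP _ (hGm z' hz')] at e1
    exact hinj hz hz' (F.inj y _ _ (hby z hz) (hby z' hz') e1)
  · intro z hz
    rw [injective_iff_map_eq_zero]
    intro w hw
    rw [hH'] at hw
    have e1 : T z (cx.I w) = 0 := by
      rw [← cy.IP _ (t3 z hz _ (cx.mem w)), hw, map_zero]
    have e2 := tinj z hz _ (cx.mem w) e1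
    rw [← cx.PI w, e2, map_zero]
  · intro z hz u w
    rw [hH', hH', cy.normP (t3 z hz _ (cx.mem u)), cy.normP (t3 z hz _ (cx.mem w)),
      ← cx.norm u, ← cx.norm w]
    exact tqc z hz _ (cx.mem u) _ (cx.mem w)

end Pool.Agent.Q130.UQ
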