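import Mathlib

set_option autoImplicit false

open Metric Set MeasureTheory

namespace Pool.Agent.Q130.UQ

/-- Euclidean space. -/
abbrev V (D : ℕ) := EuclideanSpace ℝ (Fin D)

/-- Loewner type estimate: a `C¹` function that takes the values `0` and `1` on every sphere of
radius `t ∈ [1, 2]` has large conformal energy in the shell `1/2 < ‖w‖ < 4`. -/
def SLoewner (D : ℕ) : Prop :=
  ∃ η : ENNReal, 0 < η ∧ ∀ u : V D → ℝ, ContDiff ℝ 1 u →
    (∀ t ∈ Icc (1 : ℝ) 2, (∃ a, ‖a‖ = t ∧ u a = 0) ∧ ∃ b, ‖b‖ = t ∧ u b = 1) →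
    η ≤ ∫⁻ w in {w | 1 / 2 < ‖w‖ ∧ ‖w‖ < 4}, ENNReal.ofReal (‖fderiv ℝ u w‖ ^ D)

/-- Smooth embeddings of the unit ball with bounded linear distortion. -/
structure QCEmb (D : ℕ) (K : ℝ) (H : V D → V D) (H' : V D → (V D →L[ℝ] V D)) (U : Set (V D)) :
    Prop where
  inj : InjOn H U
  deriv : ∀ v ∈ U, HasFDerivAt H (H' v) v
  cont : ContinuousOn H' U
  dinj : ∀ v ∈ U, Function.Injective (H' v)
  qc : ∀ v ∈ U, ∀ a b, ‖H' v a‖ * ‖b‖ ≤ K * (‖H' v b‖ * ‖a‖)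

/-- Topological part: if a sphere about `H 0` encloses an omitted point, then it is not contained
in the image of a smaller closed ball. -/
def STop (D : ℕ) : Prop :=
  ∀ (K : ℝ) (H : V D → V D) (H' : V D → (V D →L[ℝ] V D)), QCEmb D K H H' (ball 0 1) →
    ∀ w₀, w₀ ∉ H '' ball 0 1 → ∀ t, ‖w₀ - H 0‖ < t → ∀ s < 1,
      ∃ b, ‖b - H 0‖ = t ∧ b ∉ H '' closedBall 0 s

/-- Energy part: the function which is `0` on the image of the ball of radius `1/2` and `1` off the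
image of the ball of radius `3/4` has bounded conformal energy. -/
def SEnergy (D : ℕ) : Prop :=
  ∀ K : ℝ, ∃ M : ENNReal, M < ⊤ ∧ ∀ (H : V D → V D) (H' : V D → (V D →L[ℝ] V D)),
    QCEmb D K H H' (ball 0 1) → ∃ u : V D → ℝ, ContDiff ℝ 1 u ∧
      (∀ w ∈ H '' closedBall 0 (1 / 2), u w = 0) ∧ (∀ w ∉ H '' closedBall 0 (3 / 4), u w = 1) ∧
      ∫⁻ w, ENNReal.ofReal (‖fderiv ℝ u w‖ ^ D) ≤ M

/-- Koebe type distortion theorem (egg yolk principle). -/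
def SEgg (D : ℕ) : Prop :=
  ∀ K : ℝ, ∃ C > 0, ∀ (H : V D → V D) (H' : V D → (V D →L[ℝ] V D)), QCEmb D K H H' (ball 0 1) →
    ∀ w₀, w₀ ∉ H '' ball 0 1 → ∀ v, ‖v‖ ≤ 1 / 2 → ‖H v - H 0‖ ≤ C * ‖w₀ - H 0‖

/-- A quasiconformal embedding of the whole space is onto. -/
def SOnto (D : ℕ) : Prop :=
  ∀ (K : ℝ) (H : V D → V D) (H' : V D → (V D →L[ℝ] V D)), QCEmb D K H H' univ →
    Function.Surjective H

end Pool.Agent.Q130.UQ
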