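import Pool.Agent.H779R2.An.Basic
import Pool.Agent.Q130.UQ.Stm

set_option autoImplicit false

namespace Pool.Agent.Q130.UQ

open Pool.Agent.H721R2 Pool.Agent.H779R2.An Filter Topology

variable {X E : Type*} [MetricSpace X] [NormedAddCommGroup E] [NormedSpace ℝ E]

/-- `Λ` is a closed nonempty invariant set which is saturated by unstable leaves. -/
structure USat (S : HypSys X E) (Λ : Set X) : Prop where
  closed : IsClosed Λ
  nonempty : Λ.Nonempty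
  map : ∀ x ∈ Λ, S.g x ∈ Λ
  map' : ∀ x ∈ Λ, S.g.symm x ∈ Λ
  sat : ∀ x ∈ Λ, ∀ y, UAsym S x y → y ∈ Λ

/-- Minimal such sets. -/
structure UMin (S : HypSys X E) (Λ : Set X) : Prop extends USat S Λ where
  min : ∀ Λ', USat S Λ' → Λ' ⊆ Λ → Λ' = Λ

/-- The union of the stable leaves of the points of `Λ`. -/
def Ws (S : HypSys X E) (Λ : Set X) : Set X := {y | ∃ x ∈ Λ, SAsym S x y}

/-- A (long range) stable holonomy `φ` from a set `A` contained in one unstable leaf into another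
unstable leaf: `φ` is injective, from some time on `a` and `φ a` are stably `σ`-close, uniformly in
`a ∈ A`, and pairs that are unstably `σ`-close have unstably `3σ`-close images. -/
structure Hol (S : HypSys X E) (σ : ℝ) (A : Set X) (φ : X → X) : Prop where
  ua : ∀ a ∈ A, ∀ a' ∈ A, UAsym S a a'
  uu : ∀ a ∈ A, ∀ a' ∈ A, UAsym S (φ a) (φ a')
  inj : Set.InjOn φ A
  ev : ∃ N₀ : ℕ, ∀ N, N₀ ≤ N → (∀ a ∈ A, S.SRel σ (S.g^[N] a) (S.g^[N] (φ a))) ∧
    ∀ a ∈ A, ∀ a' ∈ A, S.URel σ (S.g^[N] a) (S.g^[N] a') →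
      S.URel (3 * σ) (S.g^[N] (φ a)) (S.g^[N] (φ a'))

/-- Every saturated set contains a minimal one. -/
def SMinEx (S : HypSys X E) : Prop := ∀ Λ, USat S Λ → ∃ Λ' ⊆ Λ, UMin S Λ'

/-- Unstable discs in the stable set of `Λ` meet every part of `Λ` after a uniformly bounded
time. -/
def SEnter (S : HypSys X E) : Prop :=
  ∀ Λ, UMin S Λ → ∀ x₀ ∈ Λ, ∀ ε > 0, ∀ ε₁ > 0, ∃ t₀ : ℕ, ∀ y, (∀ z, S.URel ε y z → z ∈ Ws S Λ) →
    ∃ z, ∃ t ≤ t₀, S.URel ε y z ∧ dist (S.g^[t] z) x₀ ≤ ε₁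

/-- Small unstable discs of `Λ` come close to every point of `Λ` after a uniformly bounded time. -/
def SReach (S : HypSys X E) : Prop :=
  ∀ Λ, UMin S Λ → ∀ x₀ ∈ Λ, ∀ ε > 0, ∀ ε₁ > 0, ∃ s₀ : ℕ, ∀ x ∈ Λ,
    ∃ z, ∃ s ≤ s₀, S.URel ε x₀ z ∧ dist (S.g^[s] z) x ≤ ε₁

/-- If the whole space is minimal then the system is transitive. -/
def STrans (S : HypSys X E) : Prop :=
  UMin S Set.univ → ∀ U V : Set X, IsOpen U → U.Nonempty → IsOpen V → V.Nonempty →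
    ∃ n : ℕ, (S.g^[n] '' U ∩ V).Nonempty

/-- If the stable set of a minimal set is saturated by unstable leaves then it is everything. -/
def SWhole (S : HypSys X E) : Prop :=
  ∀ Λ, UMin S Λ → (∀ y ∈ Ws S Λ, ∀ y', UAsym S y y' → y' ∈ Ws S Λ) → Λ = Set.univ

/-- The image of a disc of size `σ` at time `-l` in `Λ` under a long range stable holonomy does not
contain the disc of size `σ` at time `-k₀`, where `k₀` depends only on `l`. -/
def SClaimB (S : HypSys X E) : Prop :=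
  ∃ σ₀ > 0, ∀ σ > 0, σ ≤ σ₀ → ∀ Λ, UMin S Λ → ∀ l : ℕ, ∃ k₀ : ℕ, ∀ x ∈ Λ, ∀ (A : Set X)
    (φ : X → X), Hol S σ A φ → x ∈ A → (∀ a ∈ A, S.URel σ (S.g.symm^[l] x) (S.g.symm^[l] a)) →
    ∃ w, UAsym S (φ x) w ∧ S.URel σ (S.g.symm^[k₀] (φ x)) (S.g.symm^[k₀] w) ∧ w ∉ φ '' A

end Pool.Agent.Q130.UQ
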