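import Pool.Agent.Q130.UQ.Trans

set_option autoImplicit false

namespace Pool.Agent.Q130.UQ

open Pool.Agent.H721R2 Pool.Agent.H779R2.An Pool.Agent.Q130.AN Filter Topology Metric

variable {X E : Type*} [MetricSpace X] [CompactSpace X] [NormedAddCommGroup E]
  [InnerProductSpace ℝ E] [FiniteDimensional ℝ E]

variable {S : HypSys X E}

/-- Discs are chain connected at every time. -/
theorem disc_chain (F : Flat S) (x : X) {R σ : ℝ} (hσ : 0 < σ) (N : ℕ) :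
    ∀ a ∈ Disc F x R, ∃ (m : ℕ) (c : ℕ → X), c 0 = x ∧ c m = a ∧ (∀ i ≤ m, c i ∈ Disc F x R) ∧
      ∀ i < m, S.URel σ (S.g^[N] (c i)) (S.g^[N] (c (i + 1))) := by
  rintro a ⟨hxa, ha⟩
  obtain ⟨q, hq, hq0⟩ := exists_q F x
  obtain ⟨T, hT0, hT⟩ := tau_bd F R
  obtain ⟨ρ, hρ, hsm⟩ := F.small σ hσ
  have hL := S.one_le_Lu
  have hLN : (1 : ℝ) ≤ S.Lu ^ N := one_le_pow₀ hL
  set u := F.Lc x a with hu
  have hum : u ∈ S.Vu x := F.Lc_mem _ _ hxa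
  obtain ⟨m₀, hm₀⟩ := exists_nat_gt (S.Lu ^ N * (T * ‖u‖) / ρ)
  set m := m₀ + 1 with hm
  have hmr : S.Lu ^ N * (T * ‖u‖) / ρ ≤ m := by rw [hm]; push_cast; linarith
  have hm0 : (0 : ℝ) < m := by rw [hm]; positivity
  have hcm : ∀ i : ℕ, ((i : ℝ) / m) • u ∈ S.Vu x := fun i => (S.Vu x).smul_mem _ hum
  have hsz : ∀ i ≤ m, ‖((i : ℝ) / m) • u‖ ≤ ‖u‖ := by
    intro i hi
    have h1 : (i : ℝ) ≤ m := by exact_mod_cast hi
    rw [norm_smul, Real.norm_eq_abs, abs_of_nonneg (by positivity)]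
    have h2 : (i : ℝ) / m ≤ 1 := div_le_one_of_le₀ h1 hm0.le
    calc _ ≤ 1 * ‖u‖ := mul_le_mul_of_nonneg_right h2 (norm_nonneg _)
      _ = _ := one_mul _
  refine ⟨m, fun i => q (((i : ℝ) / m) • u), ?_, ?_, fun i hi => ?_, fun i hi => ?_⟩
  · simp [hq0]
  · obtain ⟨e1, e2⟩ := hq _ (hcm m)
    apply F.inj x _ _ e1 hxa
    rw [e2, div_self hm0.ne', one_smul]
  · obtain ⟨e1, e2⟩ := hq _ (hcm i)
    refine ⟨e1, ?_⟩
    rw [e2]
    exact lt_of_le_of_lt (hsz i hi) ha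
  · obtain ⟨e1, e2⟩ := hq _ (hcm i)
    obtain ⟨f1, f2⟩ := hq _ (hcm (i + 1))
    have hU := e1.symm.trans f1
    apply hsm _ _ (hU.iter N)
    rw [F.toLin0.Lc_iter hU N, F.base x _ _ e1 f1, e2, f2, ← sub_smul]
    have h1 : (((i + 1 : ℕ) : ℝ) / m - (i : ℝ) / m) = 1 / m := by push_cast; ring
    rw [h1]
    have h2 := (S.Vu x).smul_mem (1 / (m : ℝ)) hum
    have h3 := (hT x _ e1 (by rw [e2]; exact (hsz i (by omega)).trans ha.le) _ h2).1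
    have h4 := Dn_le S N _ (F.τ_mem _ _ e1 _ h2)
    rw [norm_smul, Real.norm_eq_abs, abs_of_nonneg (by positivity)] at h3
    refine h4.trans ((mul_le_mul_of_nonneg_left h3 (by positivity)).trans ?_)
    rw [div_le_iff₀ hρ] at hmr
    have : S.Lu ^ N * (T * (1 / m * ‖u‖)) = (S.Lu ^ N * (T * ‖u‖)) / m := by ring
    rw [this, div_le_iff₀ hm0]
    linarith

/-- Transport of discs of arbitrary size along short stable segments. -/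
theorem transport (F : Flat S) {D : ℕ} (hD : 1 ≤ D) (hfin : ∀ x, Module.finrank ℝ (S.Vu x) = D)
    {Λ : Set X} (hΛ : USat S Λ) {σ C₄ : ℝ} (hσ0 : 0 < σ) (hσ : 8 * σ ≤ F.ε₀)
    (h1 : ∀ x ∈ Λ, ∀ φ : X → X, Hol S σ (Disc F x 1) φ → ∀ a, UAsym S x a →
      ‖F.Lc x a‖ ≤ 1 / 2 → ‖F.Lc (φ x) (φ a)‖ ≤ C₄) (hseg : SegProp S) :
    ∃ ε > 0, ∀ x ∈ Λ, ∀ y, S.SRel ε x y → ∀ R > 0, ∃ φ, Hol S σ (Disc F x R) φ ∧ φ x = y := by
  have hε0 := F.geo.pos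
  obtain ⟨e1', he1', hcor'⟩ := exists_corner S σ hσ0
  set e1 := min e1' σ with he1
  have he10 : 0 < e1 := lt_min he1' hσ0
  obtain ⟨ε, hε, hsg⟩ := hseg 1 one_pos
  refine ⟨ε, hε, fun x hx y hxy R hR => ?_⟩
  obtain ⟨N, hN⟩ := lb3 F hD hfin hΛ (by linarith) h1 R hR he10
  obtain ⟨m, c, hc0, hcm, -, hcc⟩ := hsg x y hxy N e1 he10
  have hxD : x ∈ Disc F x R := self_disc F x hR
  have key : ∀ i ≤ m, ∃ φ, Hol S σ (Disc F x R) φ ∧ φ x = c i := by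
    intro i
    induction i with
    | zero =>
      intro _
      exact ⟨fun z => z, Hol.id hσ0.le (fun a ha a' ha' => ha.1.symm.trans ha'.1), hc0.symm⟩
    | succ i ih =>
      intro hi
      obtain ⟨φ, hφ, hφx⟩ := ih (by omega)
      refine Hol.step F.geo hσ0 hσ (e1 := e1) (e2 := σ) (n := N) le_rfl (min_le_right _ _)
        (fun x y z h1 h2 => hcor' x y z (h1.mono (min_le_left _ _)) (h2.mono (min_le_left _ _)))
        hφ hxD hφx (hcc i (by omega)) (fun a ha => ?_)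
      have := hN x hx φ hφ a ha
      rwa [hφx] at this
  obtain ⟨φ, hφ, hφx⟩ := key m le_rfl
  exact ⟨φ, hφ, hφx.trans hcm⟩

/-- Transport of discs of arbitrary size along stable leaves. -/
theorem transport' (F : Flat S) {Λ : Set X} (hΛ : USat S Λ) {σ : ℝ} {ε : ℝ} (hε : 0 < ε)
    (h : ∀ x ∈ Λ, ∀ y, S.SRel ε x y → ∀ R > 0, ∃ φ, Hol S σ (Disc F x R) φ ∧ φ x = y) :
    ∀ x ∈ Λ, ∀ y, SAsym S x y → ∀ R > 0, ∃ φ, Hol S σ (Disc F x R) φ ∧ φ x = y := by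
  intro x hx y hxy R hR
  obtain ⟨M, hM⟩ := hxy.eventually hε
  have hL := S.one_le_Lu
  have hLM : (1 : ℝ) ≤ S.Lu ^ M := one_le_pow₀ hL
  have hx' : S.g^[M] x ∈ Λ := by
    have : ∀ m : ℕ, S.g^[m] x ∈ Λ := by
      intro m
      induction m with
      | zero => exact hx
      | succ m ih => rw [Function.iterate_succ_apply']; exact hΛ.map _ ih
    exact this M
  obtain ⟨φ, hφ, hφx⟩ := h _ hx' _ (hM M le_rfl) (S.Lu ^ M * R) (by positivity)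
  refine ⟨fun z => S.g.symm^[M] (φ (S.g^[M] z)), (hφ.symm_iter M).mono ?_, ?_⟩
  · rintro a ⟨ha1, ha2⟩
    refine ⟨S.g^[M] a, ⟨ha1.iter M, ?_⟩, iter_symm_iter S M a⟩
    rw [F.toLin0.Lc_iter ha1 M]
    refine lt_of_le_of_lt (Dn_le S M x (F.Lc_mem _ _ ha1)) ?_
    exact mul_lt_mul_of_pos_left ha2 (by positivity)
  · show S.g.symm^[M] (φ (S.g^[M] x)) = y
    rw [hφx, iter_symm_iter]

/-- The whole unstable leaf is reached. -/
theorem reach_all (F : Flat S) {D : ℕ} (hfin : ∀ x, Module.finrank ℝ (S.Vu x) = D)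
    (hO : SOnto D) : ∃ σ₁ > 0, σ₁ ≤ F.ε₀ / 8 ∧ ∀ σ > 0, σ ≤ σ₁ → ∀ (Λ : Set X), USat S Λ →
    (∀ x ∈ Λ, ∀ y, SAsym S x y → ∀ R > 0, ∃ φ, Hol S σ (Disc F x R) φ ∧ φ x = y) →
    ∀ y ∈ Ws S Λ, ∀ y', UAsym S y y' → y' ∈ Ws S Λ := by
  obtain ⟨σ₁, hσ₁, hσ₁', hq⟩ := qcemb F
  have hε0 := F.geo.pos
  refine ⟨σ₁, hσ₁, hσ₁', fun σ hσ0 hσ Λ hΛ h => ?_⟩
  rintro y ⟨x, hx, hxy⟩ y' hyy'
  choose φ hφ hφx using fun n : ℕ => h x hx y hxy ((n : ℝ) + 1) (by positivity)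
  have hcomp : ∀ n m : ℕ, n ≤ m → Set.EqOn (φ n) (φ m) (Disc F x ((n : ℝ) + 1)) := by
    intro n m hnm
    have hsub : Disc F x ((n : ℝ) + 1) ⊆ Disc F x ((m : ℝ) + 1) := by
      rintro a ⟨h1, h2⟩
      refine ⟨h1, lt_of_lt_of_le h2 ?_⟩
      have : (n : ℝ) ≤ m := by exact_mod_cast hnm
      linarith
    exact Hol.uniq F.geo (by linarith) hσ0 (hφ n) ((hφ m).mono hsub) (by rw [hφx, hφx])
      (fun N a ha => disc_chain F x hσ0 N a ha)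
  let ψ : X → X := fun a => φ ⌈‖F.Lc x a‖⌉₊ a
  have hin : ∀ a, UAsym S x a → a ∈ Disc F x ((⌈‖F.Lc x a‖⌉₊ : ℝ) + 1) := fun a ha =>
    ⟨ha, lt_of_le_of_lt (Nat.le_ceil _) (by linarith)⟩
  have hψ : ∀ n : ℕ, Set.EqOn (φ n) ψ (Disc F x ((n : ℝ) + 1)) := by
    intro n a ha
    rcases le_total n ⌈‖F.Lc x a‖⌉₊ with h1 | h1
    · exact hcomp n _ h1 ha
    · exact (hcomp _ n h1 (hin a ha.1)).symm
  have hψH : ∀ n : ℕ, Hol S σ (Disc F x ((n : ℝ) + 1)) ψ := fun n => (hφ n).congr (hψ n)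
  have hψx : ψ x = y := by
    have := hψ 0 (self_disc F x (R := ((0 : ℕ) : ℝ) + 1) (by positivity))
    rw [← this, hφx]
  have hψu : ∀ a, UAsym S x a → UAsym S y (ψ a) := by
    intro a ha
    rw [← hψx]
    exact (hψH ⌈‖F.Lc x a‖⌉₊).uu x (self_disc F x (by positivity)) a (hin a ha)
  have hψs : ∀ a, UAsym S x a → SAsym S a (ψ a) := by
    intro a ha
    exact (hψH ⌈‖F.Lc x a‖⌉₊).sasym F.geo (by linarith) a (hin a ha)
  obtain ⟨q, hqq, hq0⟩ := exists_q F x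
  obtain ⟨cx⟩ := exists_crd (S.Vu x) (hfin x)
  obtain ⟨cy⟩ := exists_crd (S.Vu y) (hfin y)
  have hqx : ∀ z, UAsym S x (q (cx.I z)) := fun z => (hqq _ (cx.mem z)).1
  have hqn : ∀ z, ‖F.Lc x (q (cx.I z))‖ = ‖z‖ := fun z => by
    rw [(hqq _ (cx.mem z)).2, cx.norm]
  obtain ⟨H', hH'⟩ := hq σ hσ0 hσ D x y q ψ cx cy Set.univ isOpen_univ hqq
    (fun z _ => hψu _ (hqx z))
    (by
      intro z _ z' _ he
      set n := ⌈max ‖z‖ ‖z'‖⌉₊ with hn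
      have hle := Nat.le_ceil (max ‖z‖ ‖z'‖)
      have e1 := (hψH n).inj (x₁ := q (cx.I z)) (x₂ := q (cx.I z'))
        ⟨hqx z, by rw [hqn]; have := le_max_left ‖z‖ ‖z'‖; linarith⟩
        ⟨hqx z', by rw [hqn]; have := le_max_right ‖z‖ ‖z'‖; linarith⟩ he
      have e2 : cx.I z = cx.I z' := by
        rw [← (hqq _ (cx.mem z)).2, e1, (hqq _ (cx.mem z')).2]
      rw [← cx.PI z, e2, cx.PI])
    (by
      intro z₀ _
      refine ⟨1, one_pos, Set.subset_univ _, (hψH (⌈‖z₀‖⌉₊)).mono ?_⟩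
      rintro _ ⟨z, hz, rfl⟩
      refine ⟨hqx z, ?_⟩
      simp only [hqn]
      rw [mem_ball, dist_eq_norm] at hz
      have h1 := norm_add_le (z - z₀) z₀
      rw [sub_add_cancel] at h1
      have h2 := Nat.le_ceil ‖z₀‖
      linarith)
  obtain ⟨z, hz⟩ := hO _ _ H' hH' (cy.P (F.Lc y y'))
  have e1 : cy.I (cy.P (F.Lc y (ψ (q (cx.I z))))) = cy.I (cy.P (F.Lc y y')) := congrArg cy.I hz
  rw [cy.IP _ (F.Lc_mem _ _ (hψu _ (hqx z))), cy.IP _ (F.Lc_mem _ _ hyy')] at e1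
  have e2 := F.inj y _ _ (hψu _ (hqx z)) hyy' e1
  refine ⟨q (cx.I z), hΛ.sat x hx _ (hqx z), ?_⟩
  rw [← e2]
  exact hψs _ (hqx z)

end Pool.Agent.Q130.UQ
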