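import Pool.Agent.Q130.UQ.Defs

set_option autoImplicit false

namespace Pool.Agent.Q130.UQ

open Pool.Agent.H721R2 Pool.Agent.H779R2.An Filter Topology

variable {X E : Type*} [MetricSpace X] [NormedAddCommGroup E] [NormedSpace ℝ E]

variable {S : HypSys X E} {σ ε₀ : ℝ} {A B : Set X} {φ ψ : X → X}

/-- Product structure by the triangle inequality. -/
theorem lp {e s c : ℝ} {a a' b b' : X} (h1 : S.SRel e a b) (h2 : S.SRel e a' b')
    (h3 : S.URel s a a') (k : ℕ) (h4 : S.URel c (S.g^[k] b) (S.g^[k] b')) :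
    S.URel (max s (c + 2 * e)) (S.g^[k] a) (S.g^[k] a') := by
  intro j
  rcases le_total j k with hj | hj
  · have e1 := h4 j
    rw [symm_iter_iter_le S hj, symm_iter_iter_le S hj] at e1 ⊢
    refine le_trans ?_ (le_max_right _ _)
    have e2 := h1 (k - j)
    have e3 := h2 (k - j)
    have e4 := dist_triangle4 (S.g^[k - j] a) (S.g^[k - j] b) (S.g^[k - j] b') (S.g^[k - j] a')
    rw [dist_comm (S.g^[k - j] b') (S.g^[k - j] a')] at e4
    linarith
  · rw [symm_iter_iter_ge S hj, symm_iter_iter_ge S hj]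
    exact (h3 _).trans (le_max_left _ _)

theorem URel_of_iter {e : ℝ} {x y : X} (k : ℕ) (h : S.URel e (S.g^[k] x) (S.g^[k] y)) :
    S.URel e x y := by
  have := h.iter k
  rwa [iter_symm_iter, iter_symm_iter] at this

/-- Exponential decay along the past. -/
theorem URel_decay (hG : Geo S ε₀) {e : ℝ} (he : e ≤ ε₀) {x y : X} (h : S.URel e x y) (k : ℕ) :
    S.URel ((1 / 8) ^ k * e) (S.g.symm^[k] x) (S.g.symm^[k] y) := by
  intro j
  rw [← Function.iterate_add_apply, ← Function.iterate_add_apply]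
  have h1 := hG.ucontr x y (h.mono he) (j + k)
  have h2 := h.dist_le
  have h3 : (1 / 8 : ℝ) ^ (j + k) ≤ (1 / 8) ^ k :=
    pow_le_pow_of_le_one (by norm_num) (by norm_num) (by omega)
  calc _ ≤ (1 / 8 : ℝ) ^ (j + k) * dist x y := h1
    _ ≤ (1 / 8) ^ k * e := mul_le_mul h3 h2 dist_nonneg (by positivity)

theorem SRel_decay (hG : Geo S ε₀) {e : ℝ} (he : e ≤ ε₀) {x y : X} (h : S.SRel e x y) (k : ℕ) :
    S.SRel ((1 / 8) ^ k * e) (S.g^[k] x) (S.g^[k] y) := by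
  intro j
  rw [← Function.iterate_add_apply, ← Function.iterate_add_apply]
  have h1 := hG.scontr x y (h.mono he) (j + k)
  have h2 := h.dist_le
  have h3 : (1 / 8 : ℝ) ^ (j + k) ≤ (1 / 8) ^ k :=
    pow_le_pow_of_le_one (by norm_num) (by norm_num) (by omega)
  calc _ ≤ (1 / 8 : ℝ) ^ (j + k) * dist x y := h1
    _ ≤ (1 / 8) ^ k * e := mul_le_mul h3 h2 dist_nonneg (by positivity)

theorem exists_pow_lt (c : ℝ) {e : ℝ} (he : 0 < e) : ∃ n₀ : ℕ, ∀ n, n₀ ≤ n → (1 / 8 : ℝ) ^ n * c ≤ e := by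
  have := (tendsto_pow_atTop_nhds_zero_of_lt_one (by norm_num : (0 : ℝ) ≤ 1 / 8)
    (by norm_num)).mul_const c
  rw [zero_mul] at this
  obtain ⟨n₀, h⟩ := eventually_atTop.mp (this.eventually (gt_mem_nhds he))
  exact ⟨n₀, fun n hn => (h n hn).le⟩

theorem Hol.mono (h : Hol S σ A φ) (hB : B ⊆ A) : Hol S σ B φ where
  ua := fun a ha a' ha' => h.ua a (hB ha) a' (hB ha')
  uu := fun a ha a' ha' => h.uu a (hB ha) a' (hB ha')
  inj := h.inj.mono hB
  ev := by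
    obtain ⟨N₀, h1⟩ := h.ev
    exact ⟨N₀, fun N hN => ⟨fun a ha => (h1 N hN).1 a (hB ha),
      fun a ha a' ha' => (h1 N hN).2 a (hB ha) a' (hB ha')⟩⟩

theorem Hol.congr (h : Hol S σ A φ) (hE : Set.EqOn φ ψ A) : Hol S σ A ψ where
  ua := h.ua
  uu := fun a ha a' ha' => by rw [← hE ha, ← hE ha']; exact h.uu a ha a' ha'
  inj := (Set.EqOn.injOn_iff hE).mp h.inj
  ev := by
    obtain ⟨N₀, h1⟩ := h.ev
    refine ⟨N₀, fun N hN => ⟨fun a ha => ?_, fun a ha a' ha' => ?_⟩⟩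
    · rw [← hE ha]; exact (h1 N hN).1 a ha
    · rw [← hE ha, ← hE ha']; exact (h1 N hN).2 a ha a' ha'

theorem Hol.iter (h : Hol S σ A φ) (n : ℕ) :
    Hol S σ (S.g^[n] '' A) (fun z => S.g^[n] (φ (S.g.symm^[n] z))) where
  ua := by
    rintro _ ⟨a, ha, rfl⟩ _ ⟨a', ha', rfl⟩
    exact (h.ua a ha a' ha').iter n
  uu := by
    rintro _ ⟨a, ha, rfl⟩ _ ⟨a', ha', rfl⟩
    simp only [iter_symm_iter]
    exact (h.uu a ha a' ha').iter n
  inj := by
    rintro _ ⟨a, ha, rfl⟩ _ ⟨a', ha', rfl⟩ he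
    simp only [iter_symm_iter] at he
    have := (S.g.injective.iterate n) he
    rw [h.inj ha ha' this]
  ev := by
    obtain ⟨N₀, h1⟩ := h.ev
    refine ⟨N₀, fun N hN => ⟨?_, ?_⟩⟩
    · rintro _ ⟨a, ha, rfl⟩
      simp only [iter_symm_iter, ← Function.iterate_add_apply]
      exact (h1 (N + n) (by omega)).1 a ha
    · rintro _ ⟨a, ha, rfl⟩ _ ⟨a', ha', rfl⟩ h2
      simp only [iter_symm_iter, ← Function.iterate_add_apply] at h2 ⊢
      exact (h1 (N + n) (by omega)).2 a ha a' ha' h2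

theorem Hol.symm_iter (h : Hol S σ A φ) (n : ℕ) :
    Hol S σ (S.g.symm^[n] '' A) (fun z => S.g.symm^[n] (φ (S.g^[n] z))) where
  ua := by
    rintro _ ⟨a, ha, rfl⟩ _ ⟨a', ha', rfl⟩
    exact (h.ua a ha a' ha').symm_iter n
  uu := by
    rintro _ ⟨a, ha, rfl⟩ _ ⟨a', ha', rfl⟩
    simp only [iter_iter_symm]
    exact (h.uu a ha a' ha').symm_iter n
  inj := by
    rintro _ ⟨a, ha, rfl⟩ _ ⟨a', ha', rfl⟩ he
    simp only [iter_iter_symm] at he
    have := (S.g.symm.injective.iterate n) he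
    rw [h.inj ha ha' this]
  ev := by
    obtain ⟨N₀, h1⟩ := h.ev
    refine ⟨N₀ + n, fun N hN => ⟨?_, ?_⟩⟩
    · rintro _ ⟨a, ha, rfl⟩
      simp only [iter_iter_symm]
      rw [iter_symm_iter_ge S (by omega), iter_symm_iter_ge S (by omega)]
      exact (h1 (N - n) (by omega)).1 a ha
    · rintro _ ⟨a, ha, rfl⟩ _ ⟨a', ha', rfl⟩ h2
      simp only [iter_iter_symm] at h2 ⊢
      rw [iter_symm_iter_ge S (by omega), iter_symm_iter_ge S (by omega)] at h2 ⊢
      exact (h1 (N - n) (by omega)).2 a ha a' ha' h2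

/-- The identity. -/
theorem Hol.id (hσ : 0 ≤ σ) (hA : ∀ a ∈ A, ∀ a' ∈ A, UAsym S a a') : Hol S σ A (fun z => z) where
  ua := hA
  uu := hA
  inj := fun a _ a' _ h => h
  ev := ⟨0, fun N _ => ⟨fun a _ k => by rw [dist_self]; exact hσ,
    fun a _ a' _ h => h.mono (by linarith)⟩⟩

theorem Hol.sasym (hG : Geo S ε₀) (hσ : σ ≤ ε₀) (h : Hol S σ A φ) : ∀ a ∈ A, SAsym S a (φ a) := by
  obtain ⟨N₀, h1⟩ := h.ev
  intro a ha
  exact SAsym.of_iter N₀ (hG.sasym _ _ (((h1 N₀ le_rfl).1 a ha).mono hσ))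

/-- The two maps get as close as we like. -/
theorem Hol.near (hG : Geo S ε₀) (hσ : σ ≤ ε₀) (h : Hol S σ A φ) {η : ℝ} (hη : 0 < η) :
    ∃ N₀ : ℕ, ∀ N, N₀ ≤ N → (∀ a ∈ A, S.SRel η (S.g^[N] a) (S.g^[N] (φ a))) ∧
      ∀ a ∈ A, ∀ a' ∈ A, ∀ c ≤ σ, S.URel c (S.g^[N] a) (S.g^[N] a') →
        S.URel (3 * σ) (S.g^[N] (φ a)) (S.g^[N] (φ a')) ∧
        (3 * σ ≤ ε₀ → S.URel (c + 2 * η) (S.g^[N] (φ a)) (S.g^[N] (φ a'))) := by
  obtain ⟨N₀, h1⟩ := h.ev
  obtain ⟨n₀, h2⟩ := exists_pow_lt σ hη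
  have key : ∀ N, N₀ + n₀ ≤ N → ∀ a ∈ A, S.SRel η (S.g^[N] a) (S.g^[N] (φ a)) := by
    intro N hN a ha
    have h3 := SRel_decay hG hσ ((h1 N₀ le_rfl).1 a ha) (N - N₀)
    rw [← Function.iterate_add_apply, ← Function.iterate_add_apply,
      Nat.sub_add_cancel (by omega)] at h3
    exact h3.mono (h2 _ (by omega))
  refine ⟨N₀ + n₀, fun N hN => ⟨key N hN, fun a ha a' ha' c hc hU => ?_⟩⟩
  have h4 := (h1 N (by omega)).2 a ha a' ha' (hU.mono hc)
  refine ⟨h4, fun h5 => ?_⟩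
  have h6 := hG.URel_dist (h4.mono h5)
  refine h6.mono ?_
  have e1 := (key N hN a ha).dist_le
  have e2 := (key N hN a' ha').dist_le
  have e3 := hU.dist_le
  have e4 := dist_triangle4 (S.g^[N] (φ a)) (S.g^[N] a) (S.g^[N] a') (S.g^[N] (φ a'))
  rw [dist_comm (S.g^[N] (φ a)) (S.g^[N] a)] at e4
  linarith

/-- One step of the transport. -/
theorem Hol.step (hG : Geo S ε₀) (hσ0 : 0 < σ) (hσ : 8 * σ ≤ ε₀) {x y y' : X} {e1 e2 : ℝ} {n : ℕ}
    (he2 : e2 ≤ σ) (he12 : e1 ≤ e2)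
    (hcor : ∀ x y z : X, S.SRel e1 x y → S.URel e1 x z → ∃ w, S.URel e2 y w ∧ S.SRel e2 z w)
    (hT : Hol S σ A φ) (hx : x ∈ A) (hxy : φ x = y)
    (hyy : S.SRel e1 (S.g.symm^[n] y) (S.g.symm^[n] y'))
    (hsm : ∀ a ∈ A, S.URel e1 (S.g.symm^[n] y) (S.g.symm^[n] (φ a))) :
    ∃ ψ : X → X, Hol S σ A ψ ∧ ψ x = y' := by
  have key : ∀ a : X, ∃ w, a ∈ A → S.URel e2 (S.g.symm^[n] y') w ∧
      S.SRel e2 (S.g.symm^[n] (φ a)) w := by
    intro a
    by_cases ha : a ∈ A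
    · obtain ⟨w, h1, h2⟩ := hcor _ _ _ hyy (hsm a ha)
      exact ⟨w, fun _ => ⟨h1, h2⟩⟩
    · exact ⟨x, fun h => absurd h ha⟩
  choose W hW using key
  have hback : ∀ v, S.g.symm^[n] (S.g^[n] (W v)) = W v := fun v => iter_symm_iter S n _
  have hUW : ∀ a ∈ A, UAsym S (S.g.symm^[n] y') (W a) := fun v hv =>
    hG.uasym _ _ ((hW v hv).1.mono (by linarith))
  have hU' : ∀ a ∈ A, UAsym S y' (S.g^[n] (W a)) := by
    intro v hv
    have := (hUW v hv).iter n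
    rwa [iter_iter_symm] at this
  have hx' : S.g^[n] (W x) = y' := by
    have h1 := (hW x hx).2
    rw [hxy] at h1
    have h2 : S.g.symm^[n] y' = W x := hG.uniq _ _
      ((hyy.symm.trans h1).mono (by linarith)) ((hW x hx).1.mono (by linarith))
    rw [← h2, iter_iter_symm]
  refine ⟨fun a => S.g^[n] (W a), ⟨hT.ua, fun a ha a' ha' => (hU' a ha).symm.trans (hU' a' ha'),
    ?_, ?_⟩, hx'⟩
  · intro a ha a' ha' he
    have h0 : W a = W a' := (S.g.injective.iterate n) he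
    have h1 := (hW a ha).2
    have h2 := (hW a' ha').2
    rw [← h0] at h2
    have h3 : S.SRel (e2 + e2) (S.g.symm^[n] (φ a)) (S.g.symm^[n] (φ a')) := h1.trans h2.symm
    have h4 : S.URel (e1 + e1) (S.g.symm^[n] (φ a)) (S.g.symm^[n] (φ a')) :=
      (hsm a ha).symm.trans (hsm a' ha')
    have h5 := hG.uniq _ _ (h3.mono (by linarith)) (h4.mono (by linarith))
    exact hT.inj ha ha' ((S.g.symm.injective.iterate n) h5)
  · obtain ⟨N₀, hN₀⟩ := hT.near hG (by linarith) (η := σ / 4) (by positivity)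
    obtain ⟨n₀, hn₀⟩ := exists_pow_lt σ (e := σ / 4) (by positivity)
    have hcl : ∀ N, N₀ + n₀ ≤ N → ∀ a ∈ A,
        S.SRel (σ / 2) (S.g^[N] a) (S.g^[N] (S.g^[n] (W a))) := by
      intro N hN a ha
      have h1 := (hN₀ N (by omega)).1 a ha
      have h2 := SRel_decay hG (e := σ) (by linarith) ((hW a ha).2.mono he2) (N + n)
      rw [Function.iterate_add_apply, Function.iterate_add_apply, iter_iter_symm] at h2
      have h3 := h1.trans (h2.mono (hn₀ _ (by omega)))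
      exact h3.mono (by linarith)
    refine ⟨N₀ + n₀, fun N hN => ⟨fun a ha => (hcl N hN a ha).mono (by linarith),
      fun a ha a' ha' hU => ?_⟩⟩
    have h1 := ((hN₀ N (by omega)).2 a ha a' ha' σ le_rfl hU).1
    have hWW : S.URel (2 * e2) (W a) (W a') :=
      ((hW a ha).1.symm.trans (hW a' ha').1).mono (by linarith)
    have h2 := lp (hW a ha).2.symm (hW a' ha').2.symm hWW (N + n) (c := 3 * σ) (by
      rw [Function.iterate_add_apply, Function.iterate_add_apply, iter_iter_symm, iter_iter_symm]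
      exact h1)
    rw [Function.iterate_add_apply, Function.iterate_add_apply] at h2
    have h3 := hG.URel_dist (h2.mono (max_le (by linarith) (by linarith)))
    refine h3.mono ?_
    have e1 := (hcl N hN a ha).dist_le
    have e2 := (hcl N hN a' ha').dist_le
    have e3 := hU.dist_le
    have e4 := dist_triangle4 (S.g^[N] (S.g^[n] (W a))) (S.g^[N] a) (S.g^[N] a')
      (S.g^[N] (S.g^[n] (W a')))
    rw [dist_comm (S.g^[N] (S.g^[n] (W a))) (S.g^[N] a)] at e4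
    linarith

/-- Uniqueness along chains. -/
theorem Hol.uniq (hG : Geo S ε₀) (hσ : 8 * σ ≤ ε₀) (hσ0 : 0 < σ) (h1 : Hol S σ A φ)
    (h2 : Hol S σ A ψ) {x : X} (hxx : φ x = ψ x)
    (hch : ∀ N : ℕ, ∀ a ∈ A, ∃ (m : ℕ) (c : ℕ → X), c 0 = x ∧ c m = a ∧ (∀ i ≤ m, c i ∈ A) ∧
      ∀ i < m, S.URel σ (S.g^[N] (c i)) (S.g^[N] (c (i + 1)))) : Set.EqOn φ ψ A := by
  obtain ⟨N1, g1⟩ := h1.ev
  obtain ⟨N2, g2⟩ := h2.ev
  intro a ha
  obtain ⟨m, c, hc0, hcm, hcA, hcc⟩ := hch (N1 + N2) a ha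
  have key : ∀ i ≤ m, φ (c i) = ψ (c i) := by
    intro i
    induction i with
    | zero => intro _; rw [hc0]; exact hxx
    | succ i ih =>
      intro hi
      have h0 := ih (by omega)
      have a1 := (g1 (N1 + N2) (by omega)).2 _ (hcA i (by omega)) _ (hcA (i + 1) hi)
        (hcc i (by omega))
      have a2 := (g2 (N1 + N2) (by omega)).2 _ (hcA i (by omega)) _ (hcA (i + 1) hi)
        (hcc i (by omega))
      have b1 := (g1 (N1 + N2) (by omega)).1 _ (hcA (i + 1) hi)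
      have b2 := (g2 (N1 + N2) (by omega)).1 _ (hcA (i + 1) hi)
      rw [← h0] at a2
      have h3 := hG.uniq _ _ ((b1.symm.trans b2).mono (by linarith))
        ((a1.symm.trans a2).mono (by linarith))
      exact (S.g.injective.iterate _) h3
  rw [← hcm]
  exact key m le_rfl

end Pool.Agent.Q130.UQ
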