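import Pool.Agent.Q130.UQ.Coord

set_option autoImplicit false

namespace Pool.Agent.Q130.UQ

open Pool.Agent.H721R2 Pool.Agent.H779R2.An Pool.Agent.Q130.AN Filter Topology Metric

variable {X E : Type*} [MetricSpace X] [CompactSpace X] [NormedAddCommGroup E]
  [InnerProductSpace ℝ E] [FiniteDimensional ℝ E]

variable {S : HypSys X E}

/-- Open discs in the full unstable leaf of `x`. -/
def Disc (F : Flat S) (x : X) (R : ℝ) : Set X := {a | UAsym S x a ∧ ‖F.Lc x a‖ < R}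

theorem pow16 (R : ℝ) {ρ : ℝ} (hρ : 0 < ρ) : ∃ m : ℕ, (1 / 16 : ℝ) ^ m * R ≤ ρ := by
  have hlim : Tendsto (fun n : ℕ => (1 / 16 : ℝ) ^ n * R) atTop (𝓝 0) := by
    have := (tendsto_pow_atTop_nhds_zero_of_lt_one (by norm_num : (0 : ℝ) ≤ 1 / 16)
      (by norm_num)).mul_const R
    simpa using this
  obtain ⟨m, hm⟩ := (hlim.eventually (gt_mem_nhds hρ)).exists
  exact ⟨m, hm.le⟩

theorem self_disc (F : Flat S) (x : X) {R : ℝ} (hR : 0 < R) : x ∈ Disc F x R :=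
  ⟨UAsym.refl S x, by rw [F.Lc_self, norm_zero]; exact hR⟩

/-- Distortion theorem for long range holonomies on discs of `Λ`. -/
theorem lb1 (F : Flat S) {D : ℕ} (hfin : ∀ x, Module.finrank ℝ (S.Vu x) = D) (hE : SEgg D)
    (hB : SClaimB S) : ∃ σ₂ > 0, σ₂ ≤ F.ε₀ / 8 ∧ ∀ σ > 0, σ ≤ σ₂ → ∀ Λ, UMin S Λ → ∃ C > 0,
      ∀ x ∈ Λ, ∀ φ : X → X, Hol S σ (Disc F x 1) φ → ∀ a, UAsym S x a → ‖F.Lc x a‖ ≤ 1 / 2 →
        ‖F.Lc (φ x) (φ a)‖ ≤ C := by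
  obtain ⟨σ₁, hσ₁, hσ₁', hq⟩ := qcemb F
  obtain ⟨σ₀, hσ₀, hb⟩ := hB
  refine ⟨min σ₁ σ₀, lt_min hσ₁ hσ₀, (min_le_left _ _).trans hσ₁', fun σ hσ0 hσ Λ hΛ => ?_⟩
  have hσa : σ ≤ σ₁ := hσ.trans (min_le_left _ _)
  have hσb : σ ≤ σ₀ := hσ.trans (min_le_right _ _)
  have hε0 := F.geo.pos
  obtain ⟨ρ, hρ, hsm⟩ := F.small σ hσ0
  obtain ⟨l, hl⟩ := pow16 1 hρ
  obtain ⟨k₀, hk⟩ := hb σ hσ0 hσb Λ hΛ l
  obtain ⟨C, hC, hegg⟩ := hE ((4 * |F.K| ^ 2) * (4 * |F.K| ^ 2) * (4 * |F.K| ^ 2))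
  have hL := S.one_le_Lu
  have hLk : (1 : ℝ) ≤ S.Lu ^ k₀ := one_le_pow₀ hL
  refine ⟨C * (S.Lu ^ k₀ * (2 * σ)), by positivity, fun x hx φ hT a hxa ha => ?_⟩
  set y := φ x with hy
  have hxD : x ∈ Disc F x 1 := self_disc F x one_pos
  obtain ⟨w, hw1, hw2, hw3⟩ := hk x hx (Disc F x 1) φ hT hxD (by
    intro a ha
    apply hsm _ _ (ha.1.symm_iter l)
    rw [F.toLin0.Lc_back ha.1 l]
    refine (Dn_symm_le S l x (F.Lc_mem _ _ ha.1)).trans (le_trans ?_ hl)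
    exact mul_le_mul_of_nonneg_left ha.2.le (by positivity))
  have hwn : ‖F.Lc y w‖ ≤ S.Lu ^ k₀ * (2 * σ) := by
    have e1 := le_Dn_symm S k₀ y (F.Lc_mem _ _ hw1)
    rw [← F.toLin0.Lc_back hw1 k₀] at e1
    have e2 := F.Lc_le _ _ (hw2.mono (by linarith))
    have e3 := hw2.dist_le
    refine e1.trans (mul_le_mul_of_nonneg_left ?_ (by positivity))
    linarith
  obtain ⟨q, hqq, hq0⟩ := exists_q F x
  obtain ⟨cx⟩ := exists_crd (S.Vu x) (hfin x)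
  obtain ⟨cy⟩ := exists_crd (S.Vu y) (hfin y)
  have hqD : ∀ z ∈ ball (0 : V D) 1, q (cx.I z) ∈ Disc F x 1 := by
    intro z hz
    obtain ⟨e1, e2⟩ := hqq _ (cx.mem z)
    refine ⟨e1, ?_⟩
    rw [e2, cx.norm]
    simpa using hz
  have hsur : ∀ a, UAsym S x a → q (cx.I (cx.P (F.Lc x a))) = a := by
    intro a ha
    have e1 := F.Lc_mem _ _ ha
    rw [cx.IP _ e1]
    obtain ⟨e2, e3⟩ := hqq _ e1
    exact F.inj x _ _ e2 ha e3
  obtain ⟨H', hH'⟩ := hq σ hσ0 hσa D x y q φ cx cy (ball 0 1) isOpen_ball hqq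
    (fun z hz => hT.uu x hxD _ (hqD z hz))
    (by
      intro z hz z' hz' he
      have e1 := hT.inj (hqD z hz) (hqD z' hz') he
      have e2 : cx.I z = cx.I z' := by
        rw [← (hqq _ (cx.mem z)).2, e1, (hqq _ (cx.mem z')).2]
      rw [← cx.PI z, e2, cx.PI])
    (by
      intro z₀ hz₀
      obtain ⟨ρ', hρ', h1⟩ := Metric.isOpen_iff.mp isOpen_ball z₀ hz₀
      refine ⟨ρ', hρ', h1, hT.mono ?_⟩
      rintro _ ⟨z, hz, rfl⟩
      exact hqD z (h1 hz))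
  set H : V D → V D := fun z => cy.P (F.Lc y (φ (q (cx.I z)))) with hH
  have hH0 : H 0 = 0 := by
    show cy.P (F.Lc y (φ (q (cx.I 0)))) = 0
    rw [map_zero, hq0, ← hy, F.Lc_self, map_zero]
  have hw0 : cy.P (F.Lc y w) ∉ H '' ball 0 1 := by
    rintro ⟨z, hz, hzw⟩
    have m1 : F.Lc y (φ (q (cx.I z))) ∈ S.Vu y := F.Lc_mem _ _ (hT.uu x hxD _ (hqD z hz))
    have e1 : cy.I (cy.P (F.Lc y (φ (q (cx.I z))))) = cy.I (cy.P (F.Lc y w)) :=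
      congrArg cy.I hzw
    rw [cy.IP _ m1, cy.IP _ (F.Lc_mem _ _ hw1)] at e1
    have e2 := F.inj y _ _ (hT.uu x hxD _ (hqD z hz)) hw1 e1
    exact hw3 ⟨_, hqD z hz, e2⟩
  have haD : a ∈ Disc F x 1 := ⟨hxa, by linarith⟩
  have h1 := hegg H H' hH' _ hw0 (cx.P (F.Lc x a)) (by
    rw [cx.normP (F.Lc_mem _ _ hxa)]; exact ha)
  rw [hH0, sub_zero, sub_zero, cy.normP (F.Lc_mem _ _ hw1)] at h1
  have h2 : H (cx.P (F.Lc x a)) = cy.P (F.Lc y (φ a)) := by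
    show cy.P (F.Lc y (φ (q (cx.I (cx.P (F.Lc x a)))))) = _
    rw [hsur a hxa]
  rw [h2, cy.normP (F.Lc_mem _ _ (hT.uu x hxD a haD))] at h1
  exact h1.trans (mul_le_mul_of_nonneg_left hwn hC.le)

/-- Local bound at all scales. -/
theorem lb2 (F : Flat S) {D : ℕ} (hD : 1 ≤ D) (hfin : ∀ x, Module.finrank ℝ (S.Vu x) = D)
    {Λ : Set X} (hΛ : USat S Λ) {σ C₄ : ℝ}
    (h1 : ∀ x ∈ Λ, ∀ φ : X → X, Hol S σ (Disc F x 1) φ → ∀ a, UAsym S x a →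
      ‖F.Lc x a‖ ≤ 1 / 2 → ‖F.Lc (φ x) (φ a)‖ ≤ C₄) (R : ℝ) (hR : 0 < R) :
    ∃ c > 0, c < 1 ∧ ∃ C > 0, ∀ x ∈ Λ, ∀ φ : X → X, Hol S σ (Disc F x R) φ → ∀ a₁ a : X, ∀ δ > 0,
      UAsym S x a₁ → UAsym S x a → ‖F.Lc x a₁‖ + δ ≤ R → ‖F.Lc x a - F.Lc x a₁‖ ≤ c * δ →
      ∃ n : ℕ, 1 ≤ C * S.Lu ^ n * δ ∧ ‖F.Lc (S.g^[n] (φ a₁)) (S.g^[n] (φ a))‖ ≤ C₄ := by
  obtain ⟨T, hT0, hT⟩ := tau_bd F R
  have hL := S.one_le_Lu
  set K := |F.K| + 1 with hK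
  have hK0 : 0 < K := by positivity
  have hqc : ∀ (n : ℕ) (x : X), ∀ v ∈ S.Vu x, ∀ w ∈ S.Vu x,
      ‖Dn S n x v‖ * ‖w‖ ≤ K * (‖Dn S n x w‖ * ‖v‖) := fun n x v hv w hw =>
    (qc_abs F.qc n x v hv w hw).trans (mul_le_mul_of_nonneg_right (by linarith) (by positivity))
  have hLT : 0 < K * S.Lu * T ^ 2 := by positivity
  refine ⟨min (1 / 2) (min (1 / (2 * T * R)) (1 / (2 * (K * S.Lu * T ^ 2)))), by positivity,
    lt_of_le_of_lt (min_le_left _ _) (by norm_num), T, hT0,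
    fun x hx φ hH a₁ a δ hδ hxa₁ hxa hR1 hR2 => ?_⟩
  set c := min (1 / 2) (min (1 / (2 * T * R)) (1 / (2 * (K * S.Lu * T ^ 2)))) with hc
  have hc1 : c ≤ 1 / (2 * T * R) := (min_le_right _ _).trans (min_le_left _ _)
  have hc2 : c ≤ 1 / (2 * (K * S.Lu * T ^ 2)) := (min_le_right _ _).trans (min_le_right _ _)
  have hc0 : 0 < c := by rw [hc]; positivity
  have ha₁R : ‖F.Lc x a₁‖ ≤ R := by linarith
  have hTa : ∀ w ∈ S.Vu x, ‖F.τ x a₁ w‖ ≤ T * ‖w‖ ∧ ‖w‖ ≤ T * ‖F.τ x a₁ w‖ :=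
    hT x a₁ hxa₁ ha₁R
  have hτm : ∀ w ∈ S.Vu x, F.τ x a₁ w ∈ S.Vu a₁ := fun w hw => F.τ_mem _ _ hxa₁ _ hw
  -- the time
  have hex : ∃ n : ℕ, ∀ w ∈ S.Vu x, δ ≤ ‖w‖ → 1 ≤ ‖Dn S n a₁ (F.τ x a₁ w)‖ := by
    obtain ⟨n, hn⟩ := pow_unbounded_of_one_lt (T / δ) (by norm_num : (1 : ℝ) < 16)
    refine ⟨n, fun w hw hwδ => ?_⟩
    have e1 := le_Dn S n a₁ (hτm w hw)
    have e2 := (hTa w hw).2
    rw [div_lt_iff₀ hδ] at hn
    have e3 : T ≤ 16 ^ n * δ := hn.le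
    have e4 : T ≤ 16 ^ n * (T * ‖F.τ x a₁ w‖) :=
      e3.trans (mul_le_mul_of_nonneg_left (hwδ.trans e2) (by positivity))
    have e5 : T * 1 ≤ T * (16 ^ n * ‖F.τ x a₁ w‖) := by linarith
    exact (le_of_mul_le_mul_left e5 hT0).trans e1
  classical
  let n := Nat.find hex
  have hn : ∀ w ∈ S.Vu x, δ ≤ ‖w‖ → 1 ≤ ‖Dn S n a₁ (F.τ x a₁ w)‖ := Nat.find_spec hex
  have hup : ∀ w ∈ S.Vu x, ‖w‖ ≤ c * δ → ‖Dn S n a₁ (F.τ x a₁ w)‖ ≤ 1 / 2 := by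
    intro w hw hwδ
    rcases Nat.eq_zero_or_pos n with h | h
    · rw [h]
      have e1 := (hTa w hw).1
      have e2 : δ ≤ R := by linarith [norm_nonneg (F.Lc x a₁)]
      have e3 : c * δ ≤ 1 / (2 * T * R) * R :=
        mul_le_mul hc1 e2 hδ.le (by positivity)
      have e4 : 1 / (2 * T * R) * R = 1 / (2 * T) := by field_simp
      show ‖F.τ x a₁ w‖ ≤ 1 / 2
      calc _ ≤ T * ‖w‖ := e1
        _ ≤ T * (1 / (2 * T)) := mul_le_mul_of_nonneg_left (by linarith) hT0.le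
        _ = 1 / 2 := by field_simp
    · obtain ⟨m, hm⟩ := Nat.exists_eq_succ_of_ne_zero h.ne'
      have h2 : ¬ ∀ w ∈ S.Vu x, δ ≤ ‖w‖ → 1 ≤ ‖Dn S m a₁ (F.τ x a₁ w)‖ :=
        Nat.find_min hex (by omega)
      push Not at h2
      obtain ⟨w₀, hw₀, hw₀δ, hw₀1⟩ := h2
      have e1 : ‖Dn S n a₁ (F.τ x a₁ w₀)‖ ≤ S.Lu * 1 := by
        rw [hm, Nat.succ_eq_add_one, Dn_succ]
        exact (S.boundU _ _ (Dn_mem S m a₁ (hτm w₀ hw₀))).trans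
          (mul_le_mul_of_nonneg_left hw₀1.le (by linarith))
      have e2 := hqc n a₁ _ (hτm w hw) _ (hτm w₀ hw₀)
      have e3 := (hTa w₀ hw₀).2
      have e4 := (hTa w hw).1
      have e5 : 0 < ‖F.τ x a₁ w₀‖ := by
        by_contra hcon
        have : T * ‖F.τ x a₁ w₀‖ ≤ 0 := mul_nonpos_of_nonneg_of_nonpos hT0.le (not_lt.mp hcon)
        linarith
      have e6 : ‖Dn S n a₁ (F.τ x a₁ w)‖ * ‖F.τ x a₁ w₀‖ ≤
          (1 / 2) * ‖F.τ x a₁ w₀‖ := by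
        calc _ ≤ K * (‖Dn S n a₁ (F.τ x a₁ w₀)‖ * ‖F.τ x a₁ w‖) := e2
          _ ≤ K * (S.Lu * 1 * (T * (c * δ))) := by gcongr; exact e4.trans (by gcongr)
          _ = (K * S.Lu * T * c) * δ := by ring
          _ ≤ (K * S.Lu * T * c) * (T * ‖F.τ x a₁ w₀‖) :=
            mul_le_mul_of_nonneg_left (hw₀δ.trans e3) (by positivity)
          _ = (K * S.Lu * T ^ 2) * c * ‖F.τ x a₁ w₀‖ := by ring
          _ ≤ (K * S.Lu * T ^ 2) * (1 / (2 * (K * S.Lu * T ^ 2))) * ‖F.τ x a₁ w₀‖ := by gcongr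
          _ = _ := by field_simp
      exact le_of_mul_le_mul_right e6 e5
  have hLa : ∀ b, UAsym S x b → F.Lc (S.g^[n] a₁) (S.g^[n] b) =
      Dn S n a₁ (F.τ x a₁ (F.Lc x b - F.Lc x a₁)) := by
    intro b hb
    rw [F.toLin0.Lc_iter (hxa₁.symm.trans hb) n, F.base x a₁ b hxa₁ hb]
  have hsubm : ∀ b, UAsym S x b → F.Lc x b - F.Lc x a₁ ∈ S.Vu x := fun b hb =>
    (S.Vu x).sub_mem (F.Lc_mem _ _ hb) (F.Lc_mem _ _ hxa₁)
  refine ⟨n, ?_, ?_⟩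
  · -- lower bound of the time
    have hnt : Nontrivial (S.Vu x) := Module.nontrivial_of_finrank_pos (R := ℝ)
      (by rw [hfin x]; omega)
    obtain ⟨w, hw⟩ := exists_ne (0 : S.Vu x)
    have hwn : 0 < ‖(w : E)‖ := norm_pos_iff.mpr (fun h => hw (Subtype.ext h))
    set w' : E := (δ / ‖(w : E)‖) • (w : E) with hw'
    have hw'm : w' ∈ S.Vu x := (S.Vu x).smul_mem _ w.2
    have hw'n : ‖w'‖ = δ := by
      rw [hw', norm_smul, Real.norm_eq_abs, abs_of_pos (by positivity)]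
      field_simp
    have e1 := hn w' hw'm hw'n.ge
    have e2 := Dn_le S n a₁ (hτm w' hw'm)
    have e3 := (hTa w' hw'm).1
    rw [hw'n] at e3
    calc (1 : ℝ) ≤ S.Lu ^ n * ‖F.τ x a₁ w'‖ := e1.trans e2
      _ ≤ S.Lu ^ n * (T * δ) := by gcongr
      _ = _ := by ring
  · have hx' : S.g^[n] a₁ ∈ Λ := by
      have : ∀ m : ℕ, S.g^[m] a₁ ∈ Λ := by
        intro m
        induction m with
        | zero => exact hΛ.sat x hx _ hxa₁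
        | succ m ih => rw [Function.iterate_succ_apply']; exact hΛ.map _ ih
      exact this n
    have hsub : Disc F (S.g^[n] a₁) 1 ⊆ S.g^[n] '' Disc F x R := by
      rintro z ⟨hz1, hz2⟩
      have e1 : UAsym S x (S.g.symm^[n] z) := by
        have := hz1.symm_iter n
        rw [iter_symm_iter] at this
        exact hxa₁.trans this
      refine ⟨S.g.symm^[n] z, ⟨e1, ?_⟩, iter_iter_symm S n z⟩
      have e2 := hLa _ e1
      rw [iter_iter_symm] at e2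
      have e3 : ‖F.Lc x (S.g.symm^[n] z) - F.Lc x a₁‖ < δ := by
        by_contra hcon
        have := hn _ (hsubm _ e1) (not_lt.mp hcon)
        rw [← e2] at this
        linarith
      have e4 := norm_add_le (F.Lc x (S.g.symm^[n] z) - F.Lc x a₁) (F.Lc x a₁)
      rw [sub_add_cancel] at e4
      linarith
    have h3 := h1 _ hx' _ ((hH.iter n).mono hsub) (S.g^[n] a) ((hxa₁.symm.trans hxa).iter n) (by
      rw [hLa a hxa]
      exact hup _ (hsubm a hxa) hR2)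
    simp only [iter_symm_iter] at h3
    exact h3

end Pool.Agent.Q130.UQ
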