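import Pool.Agent.Q130.UQ.Abs

set_option autoImplicit false
set_option linter.unusedSectionVars false

open scoped Manifold ContDiff Topology Bundle
open Set Filter Bundle

namespace Pool.Agent.Q130.UQ

open Pool.Agent.H721R2 Pool.Agent.H779R2.An Pool.Agent.Q130.AN Pool.Agent.H789R2.AN
  Pool.Agent.Y321.PD

section main

variable (E : Type*) [NormedAddCommGroup E] [NormedSpace ℝ E] [FiniteDimensional ℝ E]
    (M : Type*) [TopologicalSpace M] [T2Space M] [CompactSpace M] [ConnectedSpace M]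
    [ChartedSpace E M] [IsManifold 𝓘(ℝ, E) ∞ M] (f : Diffeomorph 𝓘(ℝ, E) 𝓘(ℝ, E) M M 1)
    (hf2 : ContMDiff 𝓘(ℝ, E) 𝓘(ℝ, E) 2 f) (hf2' : ContMDiff 𝓘(ℝ, E) 𝓘(ℝ, E) 2 f.symm)
    (Es Eu : ∀ x : M, Submodule ℝ (TangentSpace 𝓘(ℝ, E) x)) (hA : IsAnosov f Es Eu)
    (N : TangentBundle 𝓘(ℝ, E) M → ℝ) (hN : IsTangentNorm N)

include hf2 hf2' hA hN

/-- Anosov diffeomorphisms that are uniformly quasiconformal on one bundle of rank at least two
are transitive. -/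
theorem main_qc (ds du : ℕ) (hds : ∀ x, Module.finrank ℝ (Es x) = ds)
    (hdu : ∀ x, Module.finrank ℝ (Eu x) = du)
    (hJ : (2 ≤ du ∧ UniformlyQC f N Eu) ∨ (2 ≤ ds ∧ UniformlyQC f N Es)) :
    TopTransitive f := by
  obtain ⟨m, e, he, hemb, hinj⟩ := exists_embedding_euclidean_of_compact (I := 𝓘(ℝ, E)) (M := M)
  let _ : MetricSpace M := hemb.isEmbedding.comapMetricSpace e
  have hiso : ∀ x y : M, dist x y = ‖e x - e y‖ := fun x y => dist_eq_norm (e x) (e y)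
  have he1 : ContMDiff 𝓘(ℝ, E) (𝓡 m) 1 e := he.of_le (by simp)
  have he2 : ContMDiff 𝓘(ℝ, E) (𝓡 m) 2 e := he.of_le (by
    exact_mod_cast (ENat.LEInfty.out : (2 : WithTop ℕ∞) ≤ ∞))
  obtain ⟨C', a, b, Ls, Lu, hE⟩ := eanosov_of_isAnosov e he1 hinj f Es Eu hA
  obtain ⟨K, hK, hang⟩ := hE.angle he1 hinj
  have t1 : Tendsto (fun n : ℕ => K * (C' * a ^ n)) atTop (𝓝 0) := by
    have := ((tendsto_pow_atTop_nhds_zero_of_lt_one hE.a_pos.le hE.a_lt).const_mul C').const_mul K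
    simpa using this
  have t2 : Tendsto (fun n : ℕ => K * (C' * b ^ n)) atTop (𝓝 0) := by
    have := ((tendsto_pow_atTop_nhds_zero_of_lt_one hE.b_pos.le hE.b_lt).const_mul C').const_mul K
    simpa using this
  obtain ⟨n, hn1, hn2⟩ := (((tendsto_order.mp t1).2 (1 / 16) (by norm_num)).and
    ((tendsto_order.mp t2).2 (1 / 16) (by norm_num))).exists
  obtain ⟨S, hS⟩ := exists_realizes hiso he1 hinj hE K hK hang n hn1.le hn2.le
  obtain ⟨Q, r, hQ⟩ := quad_of_realizes hiso he2 hinj hE hf2 hf2' hS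
  have hfin : ∀ (x : M) (V : Submodule ℝ E),
      Module.finrank ℝ (V.map (dm E e x).toLinearMap) = Module.finrank ℝ V := fun x V =>
    (LinearEquiv.finrank_eq (Submodule.equivMapOfInjective (dm E e x).toLinearMap (hinj x) V)).symm
  have hfs : ∀ x, Module.finrank ℝ (S.Vs x) = ds := fun x => by
    rw [hS.Vs_eq, hfin]; exact hds x
  have hfu : ∀ x, Module.finrank ℝ (S.Vu x) = du := fun x => by
    rw [hS.Vu_eq, hfin]; exact hdu x
  have hgn : ∀ (k : ℕ) (x : M), (S.g^[k]) x = f^[n * k] x := by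
    intro k x
    rw [hS.g_eq, Function.iterate_mul]
    rfl
  intro U V hU hUn hV hVn
  rcases hJ with ⟨hle, Ku, hKu⟩ | ⟨hle, Ks, hKs⟩
  · obtain ⟨K1, hK1⟩ := qc_of_realizes hN he1 hinj hE (K := Ku) (fun n x v hv w hw =>
      hKu n x v hv w hw) hS
    obtain ⟨k, hk⟩ := abstract_qc S hQ hK1 du ds hle hfu hfs U V hU hUn hV hVn
    refine ⟨n * k, ?_⟩
    have : (S.g^[k]) = (f^[n * k]) := funext (hgn k)
    rwa [this] at hk
  · obtain ⟨K2, hK2⟩ := qc_of_realizes hN he1 hinj hE.symm (K := Ks)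
      (qc_inverse hN hE (fun n x v hv w hw => hKs n x v hv w hw)) hS.symm
    obtain ⟨k, hk⟩ := abstract_qc S.symm hQ.symm hK2 ds du hle hfs hfu V U hV hVn
      hU hUn
    refine ⟨n * k, ?_⟩
    obtain ⟨y, ⟨x, hx, hxy⟩, hy⟩ := hk
    refine ⟨x, ⟨y, hy, ?_⟩, hx⟩
    rw [← hgn, ← hxy]
    exact iter_iter_symm S k x

/-- **Transitivity** from bounded distortion at the periodic points on one bundle of rank at least
two. -/
theorem main_per (ds du : ℕ) (hds : ∀ x, Module.finrank ℝ (Es x) = ds)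
    (hdu : ∀ x, Module.finrank ℝ (Eu x) = du)
    (hP : (2 ≤ du ∧ PerDist f N Eu) ∨ (2 ≤ ds ∧ PerDist f N Es)) : TopTransitive f := by
  obtain ⟨hu, hs⟩ := main_crit E M f hf2 hf2' Es Eu hA N hN
  refine main_qc E M f hf2 hf2' Es Eu hA N hN ds du hds hdu ?_
  rcases hP with ⟨h1, h2⟩ | ⟨h1, h2⟩
  · exact Or.inl ⟨h1, hu h2⟩
  · exact Or.inr ⟨h1, hs h2⟩

end main

end Pool.Agent.Q130.UQ
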