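import Pool.Agent.Q130.UQ.LB

set_option autoImplicit false

namespace Pool.Agent.Q130.UQ

open Pool.Agent.H721R2 Pool.Agent.H779R2.An Pool.Agent.Q130.AN Filter Topology Metric

variable {X E : Type*} [MetricSpace X] [CompactSpace X] [NormedAddCommGroup E]
  [InnerProductSpace ℝ E] [FiniteDimensional ℝ E]

variable {S : HypSys X E}

/-- Uniform bounds for the images of discs. -/
theorem lb3 (F : Flat S) {D : ℕ} (hD : 1 ≤ D) (hfin : ∀ x, Module.finrank ℝ (S.Vu x) = D)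
    {Λ : Set X} (hΛ : USat S Λ) {σ C₄ : ℝ} (hσ : σ ≤ F.ε₀)
    (h1 : ∀ x ∈ Λ, ∀ φ : X → X, Hol S σ (Disc F x 1) φ → ∀ a, UAsym S x a →
      ‖F.Lc x a‖ ≤ 1 / 2 → ‖F.Lc (φ x) (φ a)‖ ≤ C₄) (R : ℝ) (hR : 0 < R) {e : ℝ} (he : 0 < e) :
    ∃ N : ℕ, ∀ x ∈ Λ, ∀ φ : X → X, Hol S σ (Disc F x R) φ → ∀ a ∈ Disc F x R,
      S.URel e (S.g.symm^[N] (φ x)) (S.g.symm^[N] (φ a)) := by
  obtain ⟨c, hc0, hc1, C, hC, h2⟩ := lb2 F hD hfin hΛ h1 R hR
  have hL := S.one_le_Lu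
  have hε0 := F.geo.pos
  obtain ⟨ρ, hρ, hsm⟩ := F.small _ hε0
  obtain ⟨N₁, hN₁⟩ := pow16 C₄ hρ
  obtain ⟨s₀, hs₀⟩ := pow_unbounded_of_one_lt S.Lu (by norm_num : (1 : ℝ) < 8)
  set s := s₀ + 1 with hs
  have hs1 : S.Lu ≤ 8 ^ s := hs₀.le.trans (pow_le_pow_right₀ (by norm_num) (by omega))
  have hsr : (1 : ℝ) ≤ s := by rw [hs]; push_cast; linarith [(Nat.cast_nonneg s₀ : (0 : ℝ) ≤ s₀)]
  set lam : ℝ := 1 - c / s with hlam
  have hcs : c / s ≤ c := div_le_self hc0.le hsr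
  have hcs0 : 0 < c / s := by positivity
  have hlam0 : 0 < lam := by linarith
  have hlam1 : lam < 1 := by linarith
  set θ : ℝ := lam ^ s with hθ
  have hθ0 : 0 < θ := by positivity
  have hθ1 : θ < 1 := pow_lt_one₀ hlam0.le hlam1 (by omega)
  have hθc : 1 - c ≤ θ := by
    have := one_add_mul_le_pow (a := -(c / s)) (by linarith) s
    have e0 : (s : ℝ) * (c / s) = c := mul_div_cancel₀ c (by linarith : (s : ℝ) ≠ 0)
    have e2 : 1 + (s : ℝ) * -(c / s) = 1 - c := by rw [mul_neg, e0, sub_eq_add_neg]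
    rw [e2] at this
    rwa [hθ, hlam, sub_eq_add_neg]
  set M : ℝ := C * R + 1 with hM
  have hM1 : 1 ≤ M := by
    have : 0 < C * R := by positivity
    linarith
  set B : ℝ := F.ε₀ * M / (1 - lam) with hB
  obtain ⟨n₀, hn₀⟩ := exists_pow_lt B he
  refine ⟨N₁ + n₀, fun x hx φ hH a ha => ?_⟩
  obtain ⟨q, hq, hq0⟩ := exists_q F x
  have h1l : 0 < 1 - lam := by linarith
  -- one step
  have step : ∀ (i : ℕ) (a₁ a : X), UAsym S x a₁ → UAsym S x a →
      ‖F.Lc x a₁‖ ≤ R * (1 - θ ^ i) → ‖F.Lc x a - F.Lc x a₁‖ ≤ c * (R * θ ^ i) →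
      a₁ ∈ Disc F x R → a ∈ Disc F x R →
      S.URel ((1 / 8) ^ n₀ * (F.ε₀ * M) * lam ^ i) (S.g.symm^[N₁ + n₀] (φ a₁))
        (S.g.symm^[N₁ + n₀] (φ a)) := by
    intro i a₁ a hxa₁ hxa hn1 hn2 hD1 hD2
    obtain ⟨n, hn, hb⟩ := h2 x hx φ hH a₁ a (R * θ ^ i) (by positivity) hxa₁ hxa
      (by linarith) hn2
    have hUφ : UAsym S (φ a₁) (φ a) := hH.uu a₁ hD1 a hD2
    have e1 : S.URel F.ε₀ (S.g.symm^[N₁] (S.g^[n] (φ a₁))) (S.g.symm^[N₁] (S.g^[n] (φ a))) := by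
      apply hsm _ _ ((hUφ.iter n).symm_iter N₁)
      rw [F.toLin0.Lc_back (hUφ.iter n) N₁]
      refine (Dn_symm_le S N₁ _ (F.Lc_mem _ _ (hUφ.iter n))).trans (le_trans ?_ hN₁)
      exact mul_le_mul_of_nonneg_left hb (by positivity)
    have e2 := URel_decay F.geo le_rfl e1 (n + n₀)
    have e3 : ∀ z, S.g.symm^[n + n₀] (S.g.symm^[N₁] (S.g^[n] z)) = S.g.symm^[N₁ + n₀] z := by
      intro z
      rw [← Function.iterate_add_apply, symm_iter_iter_ge S (by omega)]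
      congr 1
      congr 1
      omega
    rw [e3, e3] at e2
    refine e2.mono ?_
    -- the numerical estimate
    have e4 : (1 : ℝ) ≤ (M * 8 ^ n * lam ^ i) ^ s := by
      calc (1 : ℝ) ≤ C * S.Lu ^ n * (R * θ ^ i) := hn
        _ ≤ C * (8 ^ s) ^ n * (R * θ ^ i) := by gcongr
        _ = (C * R) * (8 ^ n * lam ^ i) ^ s := by
            rw [hθ, mul_pow, ← pow_mul, ← pow_mul, ← pow_mul, ← pow_mul, mul_comm s n,
              mul_comm s i]
            ring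
        _ ≤ M * (8 ^ n * lam ^ i) ^ s := by
            apply mul_le_mul_of_nonneg_right _ (by positivity)
            linarith
        _ ≤ M ^ s * (8 ^ n * lam ^ i) ^ s := by
            apply mul_le_mul_of_nonneg_right _ (by positivity)
            exact le_self_pow₀ hM1 (by omega)
        _ = _ := by rw [← mul_pow]; ring
    have e5 : 1 ≤ M * 8 ^ n * lam ^ i := by
      by_contra hcon
      have := pow_lt_one₀ (by positivity) (not_le.mp hcon) (by omega : s ≠ 0)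
      linarith
    have e6 : (1 / 8 : ℝ) ^ n ≤ M * lam ^ i := by
      have e7 : (1 / 8 : ℝ) ^ n * 1 ≤ (1 / 8 : ℝ) ^ n * (M * 8 ^ n * lam ^ i) :=
        mul_le_mul_of_nonneg_left e5 (by positivity)
      have e8 : (1 / 8 : ℝ) ^ n * (M * 8 ^ n * lam ^ i) = M * lam ^ i := by
        have : (1 / 8 : ℝ) ^ n * 8 ^ n = 1 := by rw [← mul_pow]; norm_num
        calc _ = ((1 / 8 : ℝ) ^ n * 8 ^ n) * (M * lam ^ i) := by ring
          _ = _ := by rw [this, one_mul]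
      linarith
    rw [pow_add]
    calc (1 / 8 : ℝ) ^ n * (1 / 8) ^ n₀ * F.ε₀ ≤ (M * lam ^ i) * (1 / 8) ^ n₀ * F.ε₀ := by gcongr
      _ = _ := by ring
  have main : ∀ (i : ℕ) (a : X), UAsym S x a → ‖F.Lc x a‖ ≤ R * (1 - θ ^ i) →
      S.URel (∑ j ∈ Finset.range i, (1 / 8) ^ n₀ * (F.ε₀ * M) * lam ^ j)
        (S.g.symm^[N₁ + n₀] (φ x)) (S.g.symm^[N₁ + n₀] (φ a)) := by
    intro i
    induction i with
    | zero =>
      intro a hxa ha
      rw [pow_zero, sub_self, mul_zero, norm_le_zero_iff] at ha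
      have : x = a := F.inj x _ _ (UAsym.refl S x) hxa (by rw [F.Lc_self, ha])
      subst this
      intro k
      rw [dist_self]
      simp
    | succ i ih =>
      intro a hxa ha
      have hθi : 0 < θ ^ i := by positivity
      have hθi1 : θ ^ i ≤ 1 := pow_le_one₀ hθ0.le hθ1.le
      have hθi2 : θ ^ (i + 1) < 1 := pow_lt_one₀ hθ0.le hθ1 (by omega)
      have hθi3 : θ ^ (i + 1) ≤ θ ^ i := pow_le_pow_of_le_one hθ0.le hθ1.le (by omega)
      set t : ℝ := (1 - θ ^ i) / (1 - θ ^ (i + 1)) with ht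
      have ht0 : 0 ≤ t := div_nonneg (by linarith) (by linarith)
      have ht1 : t ≤ 1 := div_le_one_of_le₀ (by linarith) (by linarith)
      have htm : t * (1 - θ ^ (i + 1)) = 1 - θ ^ i := by
        rw [ht]; field_simp [show (1 - θ ^ (i + 1)) ≠ 0 by linarith]
      have hum := F.Lc_mem _ _ hxa
      obtain ⟨q1, q2⟩ := hq _ ((S.Vu x).smul_mem t hum)
      have n1 : ‖F.Lc x (q (t • F.Lc x a))‖ ≤ R * (1 - θ ^ i) := by
        rw [q2, norm_smul, Real.norm_eq_abs, abs_of_nonneg ht0]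
        calc t * ‖F.Lc x a‖ ≤ t * (R * (1 - θ ^ (i + 1))) := by gcongr
          _ = R * (t * (1 - θ ^ (i + 1))) := by ring
          _ = _ := by rw [htm]
      have n2 : ‖F.Lc x a - F.Lc x (q (t • F.Lc x a))‖ ≤ c * (R * θ ^ i) := by
        have e1 : F.Lc x a - F.Lc x (q (t • F.Lc x a)) = (1 - t) • F.Lc x a := by
          rw [q2, sub_smul, one_smul]
        rw [e1, norm_smul, Real.norm_eq_abs, abs_of_nonneg (by linarith)]
        have e2 : (1 - t) * (1 - θ ^ (i + 1)) = θ ^ i * (1 - θ) := by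
          have : (1 - t) * (1 - θ ^ (i + 1)) = (1 - θ ^ (i + 1)) - t * (1 - θ ^ (i + 1)) := by ring
          rw [this, htm, pow_succ]; ring
        calc (1 - t) * ‖F.Lc x a‖ ≤ (1 - t) * (R * (1 - θ ^ (i + 1))) := by
              apply mul_le_mul_of_nonneg_left ha (by linarith)
          _ = R * ((1 - t) * (1 - θ ^ (i + 1))) := by ring
          _ = R * (θ ^ i * (1 - θ)) := by rw [e2]
          _ ≤ R * (θ ^ i * c) := by gcongr; linarith
          _ = _ := by ring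
      have hD1 : q (t • F.Lc x a) ∈ Disc F x R := by
        refine ⟨q1, lt_of_le_of_lt n1 ?_⟩
        have : R * (1 - θ ^ i) < R * 1 := mul_lt_mul_of_pos_left (by linarith) hR
        linarith
      have hD2 : a ∈ Disc F x R := by
        refine ⟨hxa, lt_of_le_of_lt ha ?_⟩
        have : R * (1 - θ ^ (i + 1)) < R * 1 :=
          mul_lt_mul_of_pos_left (by linarith [show 0 < θ ^ (i + 1) by positivity]) hR
        linarith
      rw [Finset.sum_range_succ]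
      exact (ih _ q1 n1).trans (step i _ a q1 hxa n1 n2 hD1 hD2)
  obtain ⟨i, hi⟩ : ∃ i : ℕ, ‖F.Lc x a‖ ≤ R * (1 - θ ^ i) := by
    have h0 : 0 < 1 - ‖F.Lc x a‖ / R := by
      have := (div_lt_one hR).mpr ha.2
      linarith
    obtain ⟨i, hi⟩ := exists_pow_lt_of_lt_one h0 hθ1
    refine ⟨i, ?_⟩
    have : ‖F.Lc x a‖ / R ≤ 1 - θ ^ i := by linarith
    rw [div_le_iff₀ hR] at this
    linarith
  refine (main i a ha.1 hi).mono ?_
  rw [← Finset.mul_sum]
  have hg : ∑ j ∈ Finset.range i, lam ^ j ≤ 1 / (1 - lam) := by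
    rw [geom_sum_eq hlam1.ne]
    rw [show (lam ^ i - 1) / (lam - 1) = (1 - lam ^ i) / (1 - lam) by
      rw [← neg_div_neg_eq]; ring]
    gcongr
    have : 0 < lam ^ i := by positivity
    linarith
  calc (1 / 8 : ℝ) ^ n₀ * (F.ε₀ * M) * ∑ j ∈ Finset.range i, lam ^ j ≤
      (1 / 8 : ℝ) ^ n₀ * (F.ε₀ * M) * (1 / (1 - lam)) := by gcongr
    _ = (1 / 8 : ℝ) ^ n₀ * B := by rw [hB]; ring
    _ ≤ e := hn₀ n₀ le_rfl

end Pool.Agent.Q130.UQ
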